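import Mathlib

/-!
# Semilinear groups of degree two and their congruence subgroups
-/

set_option autoImplicit false

namespace Pool.Agent.J6H75.BT

open scoped commutatorElement

/-- `GL₂` of a ring -/
abbrev GL2 (A : Type) [Ring A] : Type := (Matrix (Fin 2) (Fin 2) A)ˣ

/-- the action of the ring automorphisms on `GL₂` -/
def glAut (A : Type) [Ring A] : (A ≃+* A) →* MulAut (GL2 A) where
  toFun σ := Units.mapEquiv (RingEquiv.mapMatrix (m := Fin 2) σ).toMulEquiv
  map_one' := by
    ext g i j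
    rfl
  map_mul' σ τ := by
    ext g i j
    rfl

theorem glAut_val {A : Type} [Ring A] (σ : A ≃+* A) (g : GL2 A) (i j : Fin 2) :
    (glAut A σ g).val i j = σ (g.val i j) := rfl

/-- the group of the semilinear transformations `GL₂(A) ⋊ Γ`, where `Γ` acts on `A` by `s` -/
abbrev GaL {A : Type} [Ring A] {Γ : Type} [Group Γ] (s : Γ →* (A ≃+* A)) : Type :=
  GL2 A ⋊[(glAut A).comp s] Γ

section cong

variable {A : Type} [Ring A] {Γ : Type} [Group Γ] (s : Γ →* (A ≃+* A))

/-- two-sided ideals invariant under `Γ` -/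
structure Inv (J : Ideal A) : Prop where
  mul_right : ∀ a ∈ J, ∀ b, a * b ∈ J
  inv : ∀ (γ : Γ), ∀ a ∈ J, s γ a ∈ J

variable {s}

theorem mulE {J : Ideal A} (hJ : Inv s J) {M N : Matrix (Fin 2) (Fin 2) A} (hM : ∀ i j, M i j ∈ J) :
    ∀ i j, (M * N) i j ∈ J := by
  intro i j
  rw [Matrix.mul_apply]
  exact Ideal.sum_mem _ fun k _ => hJ.mul_right _ (hM i k) _

theorem mulE' {J : Ideal A} {M N : Matrix (Fin 2) (Fin 2) A} (hN : ∀ i j, N i j ∈ J) :
    ∀ i j, (M * N) i j ∈ J := by
  intro i j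
  rw [Matrix.mul_apply]
  exact Ideal.sum_mem _ fun k _ => J.mul_mem_left _ (hN k j)

variable (s)

/-- the congruence subgroup of `J` -/
def Kc (J : Ideal A) (hJ : Inv s J) : Subgroup (GaL s) where
  carrier := {x | x.right = 1 ∧ ∀ i j, (x.left.val - 1) i j ∈ J}
  mul_mem' := by
    rintro x y ⟨hx, hx'⟩ ⟨hy, hy'⟩
    refine ⟨by rw [SemidirectProduct.mul_right, hx, hy, one_mul], ?_⟩
    rw [SemidirectProduct.mul_left, hx, map_one, MulAut.one_apply, Units.val_mul]
    have h1 : x.left.val * y.left.val - 1 = (x.left.val - 1) * y.left.val + (y.left.val - 1) := by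
      rw [sub_mul, one_mul]; abel
    rw [h1]
    intro i j
    exact J.add_mem (mulE hJ hx' i j) (hy' i j)
  one_mem' := ⟨rfl, fun i j => by simp⟩
  inv_mem' := by
    rintro x ⟨hx, hx'⟩
    refine ⟨by rw [SemidirectProduct.inv_right, hx, inv_one], ?_⟩
    rw [SemidirectProduct.inv_left, hx, inv_one, map_one, MulAut.one_apply]
    have h1 : (x.left⁻¹).val - 1 = -((x.left⁻¹).val * (x.left.val - 1)) := by
      rw [mul_sub, Units.inv_mul, mul_one]; abel
    rw [h1]
    intro i j
    rw [Matrix.neg_apply]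
    exact J.neg_mem (mulE' hx' i j)

variable {s}

theorem mem_Kc {J : Ideal A} {hJ : Inv s J} {x : GaL s} :
    x ∈ Kc s J hJ ↔ x.right = 1 ∧ ∀ i j, (x.left.val - 1) i j ∈ J := Iff.rfl

theorem Kc_mono {J J' : Ideal A} {hJ : Inv s J} {hJ' : Inv s J'} (h : J ≤ J') :
    Kc s J hJ ≤ Kc s J' hJ' := fun _ hx => ⟨hx.1, fun i j => h (hx.2 i j)⟩

theorem Kc_normal (J : Ideal A) (hJ : Inv s J) : (Kc s J hJ).Normal := by
  refine ⟨?_⟩
  rintro x ⟨hx, hx'⟩ g
  refine ⟨by simp [hx], ?_⟩
  have h2 : ∀ i j, ((glAut A (s g.right) x.left).val - 1) i j ∈ J := by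
    intro i j
    have h3 : ((glAut A (s g.right) x.left).val - 1) i j =
        s g.right ((x.left.val - 1) i j) := by
      rw [Matrix.sub_apply, Matrix.sub_apply, glAut_val, map_sub]
      congr 1
      by_cases h : i = j
      · rw [h, Matrix.one_apply_eq, map_one]
      · rw [Matrix.one_apply_ne h, map_zero]
    rw [h3]
    exact hJ.inv _ _ (hx' i j)
  have h4 : (g * x * g⁻¹).left = g.left * glAut A (s g.right) x.left * g.left⁻¹ := by
    simp only [SemidirectProduct.mul_left, SemidirectProduct.mul_right, SemidirectProduct.inv_left,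
      SemidirectProduct.inv_right, hx, mul_one]
    rw [← MulAut.mul_apply, ← map_mul, mul_inv_cancel, map_one, MulAut.one_apply]
    rfl
  rw [h4, Units.val_mul, Units.val_mul]
  have h5 : g.left.val * (glAut A (s g.right) x.left).val * (g.left⁻¹).val - 1 =
      g.left.val * ((glAut A (s g.right) x.left).val - 1) * (g.left⁻¹).val := by
    rw [mul_sub, sub_mul, mul_one, Units.mul_inv]
  rw [h5]
  exact mulE hJ (mulE' h2)

theorem Kc_comm {J J' : Ideal A} (hJ : Inv s J) (hJ' : Inv s J')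
    (h : ∀ a ∈ J, ∀ b ∈ J, a * b ∈ J') : ⁅Kc s J hJ, Kc s J hJ⁆ ≤ Kc s J' hJ' := by
  rw [Subgroup.commutator_le]
  rintro x ⟨hx, hx'⟩ y ⟨hy, hy'⟩
  refine ⟨by simp [commutatorElement_def, hx, hy], ?_⟩
  have h1 : ⁅x, y⁆.left = x.left * y.left * x.left⁻¹ * y.left⁻¹ := by
    simp [commutatorElement_def, SemidirectProduct.mul_left, SemidirectProduct.mul_right,
      SemidirectProduct.inv_left, SemidirectProduct.inv_right, hx, hy]
  rw [h1, Units.val_mul, Units.val_mul, Units.val_mul]
  have hxy : ∀ i j, ((x.left.val - 1) * (y.left.val - 1)) i j ∈ J' := by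
    intro i j
    rw [Matrix.mul_apply]
    exact Ideal.sum_mem _ fun k _ => h _ (hx' i k) _ (hy' k j)
  have hyx : ∀ i j, ((y.left.val - 1) * (x.left.val - 1)) i j ∈ J' := by
    intro i j
    rw [Matrix.mul_apply]
    exact Ideal.sum_mem _ fun k _ => h _ (hy' i k) _ (hx' k j)
  have h2 : x.left.val * y.left.val * (x.left⁻¹).val * (y.left⁻¹).val - 1 =
      ((x.left.val - 1) * (y.left.val - 1) - (y.left.val - 1) * (x.left.val - 1)) *
        ((x.left⁻¹).val * (y.left⁻¹).val) := by
    have h3 : (x.left.val - 1) * (y.left.val - 1) - (y.left.val - 1) * (x.left.val - 1) =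
        x.left.val * y.left.val - y.left.val * x.left.val := by noncomm_ring
    rw [h3, sub_mul]
    congr 1
    · rw [mul_assoc]
    · rw [mul_assoc, ← mul_assoc x.left.val, Units.mul_inv, one_mul, Units.mul_inv]
  rw [h2]
  refine mulE hJ' fun i j => ?_
  rw [Matrix.sub_apply]
  exact J'.sub_mem (hxy i j) (hyx i j)

end cong

end Pool.Agent.J6H75.BT
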