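import Mathlib

/-!
# A graph given by a parent function is a tree
-/

set_option autoImplicit false

namespace Pool.Agent.J6H75.BT

open SimpleGraph

/-- A graph on `V` in which the neighbours are given by a parent function `p` that lowers a level
function by one is a tree if any two vertices have a common ancestor. -/
theorem tree_of_parent {V : Type} [Nonempty V] (T : SimpleGraph V) (p : V → V) (l : V → ℤ)
    (hl : ∀ x, l (p x) = l x - 1) (hadj : ∀ x y, T.Adj x y ↔ p x = y ∨ p y = x)
    (hcon : ∀ x y, ∃ m n : ℕ, p^[m] x = p^[n] y) : T.IsTree := by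
  classical
  have hreach : ∀ (n : ℕ) (x : V), T.Reachable x (p^[n] x) := by
    intro n
    induction n with
    | zero => intro x; exact Reachable.refl x
    | succ n ih =>
      intro x
      rw [Function.iterate_succ_apply']
      refine (ih x).trans (Adj.reachable ?_)
      exact (hadj _ _).2 (Or.inl rfl)
  refine ⟨⟨fun x y => ?_⟩, ?_⟩
  · obtain ⟨m, n, h⟩ := hcon x y
    exact (hreach m x).trans (h ▸ (hreach n y).symm)
  · intro v c hc
    obtain ⟨u, hu, hmax⟩ : ∃ u ∈ c.support, ∀ w ∈ c.support, l w ≤ l u := by
      obtain ⟨u, hu, h⟩ := (c.support.toFinset).exists_max_image l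
        ⟨v, by simp⟩
      exact ⟨u, by simpa using hu, fun w hw => h w (by simpa using hw)⟩
    have hc' := hc.rotate hu
    obtain ⟨c', hc'd⟩ : ∃ c' : T.Walk u u, c' = c.rotate u hu := ⟨_, rfl⟩
    rw [← hc'd] at hc'
    have hmax' : ∀ w ∈ c'.support, l w ≤ l u := by
      intro w hw
      rw [hc'd] at hw
      exact hmax w ((Walk.mem_support_rotate_iff _ _ _).1 hw)
    have key : ∀ w, T.Adj u w → w ∈ c'.support → w = p u := by
      intro w hw hws
      rcases (hadj u w).1 hw with h | h
      · exact h.symm
      · have h1 := hmax' w hws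
        have h2 := hl w
        rw [h] at h2
        omega
    have h1 := key c'.snd (c'.adj_snd hc'.not_nil) (Walk.getVert_mem_support _ _)
    have h2 := key c'.penultimate (c'.adj_penultimate hc'.not_nil).symm (Walk.getVert_mem_support _ _)
    exact hc'.snd_ne_penultimate (h1.trans h2.symm)

end Pool.Agent.J6H75.BT
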