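import Mathlib

/-!
# The Bruhat-Tits tree of `GL₂` of a division ring with a discrete valuation
-/

set_option autoImplicit false

namespace Pool.Agent.J6H75.BT

/-- A discrete valuation on a division ring, with value group `ℤ` (only the values at nonzero
elements matter). -/
structure DV (D : Type) [DivisionRing D] where
  /-- the valuation -/
  v : D → ℤ
  map_mul : ∀ a b, a ≠ 0 → b ≠ 0 → v (a * b) = v a + v b
  map_add : ∀ a b, a ≠ 0 → b ≠ 0 → a + b ≠ 0 → min (v a) (v b) ≤ v (a + b)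
  /-- a uniformizer -/
  t : D
  t_ne : t ≠ 0
  v_t : v t = 1

namespace DV

variable {D : Type} [DivisionRing D] (V : DV D)

/-- `x` has valuation at least `n`, or is zero -/
def Ge (n : ℤ) (x : D) : Prop := x = 0 ∨ n ≤ V.v x

variable {V}

theorem ge_zero (n : ℤ) : V.Ge n 0 := Or.inl rfl

theorem v_one : V.v 1 = 0 := by
  have := V.map_mul 1 1 one_ne_zero one_ne_zero
  rw [mul_one] at this
  linarith

theorem v_inv {x : D} (hx : x ≠ 0) : V.v x⁻¹ = - V.v x := by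
  have := V.map_mul x x⁻¹ hx (inv_ne_zero hx)
  rw [mul_inv_cancel₀ hx, v_one] at this
  linarith

theorem v_neg (x : D) : V.v (-x) = V.v x := by
  have h1 : V.v (-1 : D) = 0 := by
    have := V.map_mul (-1) (-1) (neg_ne_zero.2 one_ne_zero) (neg_ne_zero.2 one_ne_zero)
    rw [neg_mul_neg, mul_one, v_one] at this
    linarith
  by_cases hx : x = 0
  · rw [hx, neg_zero]
  · have := V.map_mul (-1) x (neg_ne_zero.2 one_ne_zero) hx
    rw [neg_one_mul, h1, zero_add] at this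
    exact this

theorem ge_mono {m n : ℤ} (h : m ≤ n) {x : D} (hx : V.Ge n x) : V.Ge m x :=
  hx.imp id h.trans

theorem ge_mul {m n : ℤ} {x y : D} (hx : V.Ge m x) (hy : V.Ge n y) : V.Ge (m + n) (x * y) := by
  by_cases hx0 : x = 0
  · exact Or.inl (by rw [hx0, zero_mul])
  by_cases hy0 : y = 0
  · exact Or.inl (by rw [hy0, mul_zero])
  · right
    rw [V.map_mul x y hx0 hy0]
    exact add_le_add (hx.resolve_left hx0) (hy.resolve_left hy0)

theorem ge_add {n : ℤ} {x y : D} (hx : V.Ge n x) (hy : V.Ge n y) : V.Ge n (x + y) := by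
  by_cases hx0 : x = 0
  · rwa [hx0, zero_add]
  by_cases hy0 : y = 0
  · rwa [hy0, add_zero]
  by_cases h : x + y = 0
  · exact Or.inl h
  · right
    exact (le_min (hx.resolve_left hx0) (hy.resolve_left hy0)).trans (V.map_add x y hx0 hy0 h)

theorem ge_neg {n : ℤ} {x : D} (hx : V.Ge n x) : V.Ge n (-x) := by
  rcases hx with h | h
  · exact Or.inl (by rw [h, neg_zero])
  · exact Or.inr (by rwa [v_neg])

theorem ge_one : V.Ge 0 1 := Or.inr (by rw [v_one])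

theorem ge_mul_left {n : ℤ} {p x : D} (hp : p ≠ 0) : V.Ge n (p * x) ↔ V.Ge (n - V.v p) x := by
  by_cases hx : x = 0
  · simp [hx, Ge]
  · constructor
    · intro h
      right
      have h1 := h.resolve_left (mul_ne_zero hp hx)
      rw [V.map_mul p x hp hx] at h1
      linarith
    · intro h
      right
      have h1 := h.resolve_left hx
      rw [V.map_mul p x hp hx]
      linarith

theorem ge_ne {n : ℤ} {x : D} (hx : x ≠ 0) : V.Ge n x ↔ n ≤ V.v x :=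
  ⟨fun h => h.resolve_left hx, Or.inr⟩

/-! ### matrices -/

/-- all entries have valuation at least `n` -/
def MGe (V : DV D) (n : ℤ) (M : Matrix (Fin 2) (Fin 2) D) : Prop := ∀ i j, V.Ge n (M i j)

theorem mge_mono {m n : ℤ} (h : m ≤ n) {M : Matrix (Fin 2) (Fin 2) D} (hM : V.MGe n M) :
    V.MGe m M := fun i j => ge_mono h (hM i j)

theorem mge_mul {m n : ℤ} {M N : Matrix (Fin 2) (Fin 2) D} (hM : V.MGe m M) (hN : V.MGe n N) :
    V.MGe (m + n) (M * N) := by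
  intro i j
  rw [Matrix.mul_apply, Fin.sum_univ_two]
  exact ge_add (ge_mul (hM i 0) (hN 0 j)) (ge_mul (hM i 1) (hN 1 j))

theorem mge_one : V.MGe 0 (1 : Matrix (Fin 2) (Fin 2) D) := by
  intro i j
  by_cases h : i = j
  · rw [h, Matrix.one_apply_eq]; exact ge_one
  · rw [Matrix.one_apply_ne h]; exact ge_zero _

theorem exists_mge (M : Matrix (Fin 2) (Fin 2) D) : ∃ n : ℤ, V.MGe n M := by
  refine ⟨min (min (V.v (M 0 0)) (V.v (M 0 1))) (min (V.v (M 1 0)) (V.v (M 1 1))), ?_⟩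
  intro i j
  right
  fin_cases i <;> fin_cases j <;> simp

theorem mge_mat {n : ℤ} {a b c d : D} : V.MGe n !![a, b; c, d] ↔
    V.Ge n a ∧ V.Ge n b ∧ V.Ge n c ∧ V.Ge n d := by
  constructor
  · intro h
    exact ⟨h 0 0, h 0 1, h 1 0, h 1 1⟩
  · rintro ⟨h1, h2, h3, h4⟩ i j
    fin_cases i <;> fin_cases j <;> assumption

/-- the group `GL₂(D)` -/
abbrev GLD (D : Type) [DivisionRing D] : Type := (Matrix (Fin 2) (Fin 2) D)ˣ

/-- the stabilizer of the standard vertex -/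
def H0 (V : DV D) : Subgroup (GLD D) where
  carrier := {h | ∃ m : ℤ, V.MGe m h.val ∧ V.MGe (-m) (h⁻¹).val}
  mul_mem' := by
    rintro a b ⟨m, hm, hm'⟩ ⟨n, hn, hn'⟩
    refine ⟨m + n, mge_mul hm hn, ?_⟩
    rw [mul_inv_rev, Units.val_mul]
    have := mge_mul hn' hm'
    rwa [show -n + -m = -(m + n) by ring] at this
  one_mem' := ⟨0, mge_one, by rw [inv_one, neg_zero]; exact mge_one⟩
  inv_mem' := by
    rintro a ⟨m, hm, hm'⟩
    exact ⟨-m, hm', by rw [inv_inv, neg_neg]; exact hm⟩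

theorem mem_H0 {h : GLD D} : h ∈ V.H0 ↔ ∃ m : ℤ, V.MGe m h.val ∧ V.MGe (-m) (h⁻¹).val := Iff.rfl

/-- the elements which move the standard vertex to a neighbour -/
def S1 (V : DV D) : Set (GLD D) :=
  {h | (∃ m : ℤ, V.MGe m h.val ∧ V.MGe (-m - 1) (h⁻¹).val) ∧ h ∉ V.H0}

theorem S1_inv {h : GLD D} (hh : h ∈ V.S1) : h⁻¹ ∈ V.S1 := by
  obtain ⟨⟨m, hm, hm'⟩, h0⟩ := hh
  refine ⟨⟨-m - 1, hm', ?_⟩, fun h => h0 (by simpa using V.H0.inv_mem h)⟩
  rw [inv_inv, show -(-m - 1) - 1 = m by ring]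
  exact hm

theorem S1_mul {h k : GLD D} (hh : h ∈ V.S1) (hk : k ∈ V.H0) : h * k ∈ V.S1 := by
  obtain ⟨⟨m, hm, hm'⟩, h0⟩ := hh
  obtain ⟨n, hn, hn'⟩ := id hk
  refine ⟨⟨m + n, mge_mul hm hn, ?_⟩, fun h => h0 ?_⟩
  · rw [mul_inv_rev, Units.val_mul]
    have := mge_mul hn' hm'
    rwa [show -n + (-m - 1) = -(m + n) - 1 by ring] at this
  · simpa using V.H0.mul_mem h (V.H0.inv_mem hk)

theorem mul_S1 {h k : GLD D} (hh : h ∈ V.S1) (hk : k ∈ V.H0) : k * h ∈ V.S1 := by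
  have := S1_inv (S1_mul (S1_inv hh) (V.H0.inv_mem hk))
  rwa [mul_inv_rev, inv_inv, inv_inv] at this

/-! ### affine matrices -/

/-- the matrix `(p, q; 0, 1)` -/
def aff (p q : D) (hp : p ≠ 0) : GLD D where
  val := !![p, q; 0, 1]
  inv := !![p⁻¹, -(p⁻¹ * q); 0, 1]
  val_inv := by
    ext i j
    fin_cases i <;> fin_cases j <;> simp [Matrix.mul_apply, Fin.sum_univ_two, hp]
  inv_val := by
    ext i j
    fin_cases i <;> fin_cases j <;> simp [Matrix.mul_apply, Fin.sum_univ_two, hp]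

theorem aff_val (p q : D) (hp : p ≠ 0) : (aff p q hp).val = !![p, q; 0, 1] := rfl

theorem aff_inv_val (p q : D) (hp : p ≠ 0) :
    ((aff p q hp)⁻¹).val = !![p⁻¹, -(p⁻¹ * q); 0, 1] := rfl

theorem aff_inv_mul (p q p' q' : D) (hp : p ≠ 0) (hp' : p' ≠ 0) :
    (aff p q hp)⁻¹ * aff p' q' hp' =
      aff (p⁻¹ * p') (p⁻¹ * (q' - q)) (mul_ne_zero (inv_ne_zero hp) hp') := by
  apply Units.ext
  rw [Units.val_mul, aff_inv_val, aff_val, aff_val]
  ext i j
  fin_cases i <;> fin_cases j <;> simp [Matrix.mul_apply, Fin.sum_univ_two, mul_add,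
    sub_eq_add_neg]

theorem aff_mem_H0 {p q : D} (hp : p ≠ 0) : aff p q hp ∈ V.H0 ↔ V.v p = 0 ∧ V.Ge 0 q := by
  rw [mem_H0]
  constructor
  · rintro ⟨m, h1, h2⟩
    rw [aff_val, mge_mat] at h1
    rw [aff_inv_val, mge_mat] at h2
    obtain ⟨h3, h4, -, h5⟩ := h1
    obtain ⟨h6, -, -, h7⟩ := h2
    rw [ge_ne one_ne_zero, v_one] at h5 h7
    rw [ge_ne hp] at h3
    rw [ge_ne (inv_ne_zero hp), v_inv hp] at h6
    have hm : m = 0 := by omega
    subst hm
    exact ⟨by omega, h4⟩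
  · rintro ⟨h1, h2⟩
    refine ⟨0, ?_, ?_⟩
    · rw [aff_val, mge_mat]
      exact ⟨(ge_ne hp).2 h1.ge, h2, ge_zero _, ge_one⟩
    · rw [aff_inv_val, mge_mat, neg_zero]
      have h3 : V.Ge 0 p⁻¹ := (ge_ne (inv_ne_zero hp)).2 (by rw [v_inv hp, h1]; rfl)
      refine ⟨h3, ge_neg ?_, ge_zero _, ge_one⟩
      have := ge_mul h3 h2
      rwa [add_zero] at this

theorem aff_mem_S1 {p q : D} (hp : p ≠ 0) : aff p q hp ∈ V.S1 ↔
    (V.v p = 1 ∧ V.Ge 0 q) ∨ (V.v p = -1 ∧ V.Ge (-1) q) := by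
  have key : V.Ge 0 (p⁻¹ * q) ↔ V.Ge (V.v p) q := by
    rw [ge_mul_left (inv_ne_zero hp), v_inv hp, sub_neg_eq_add, zero_add]
  constructor
  · rintro ⟨⟨m, h1, h2⟩, h0⟩
    rw [aff_mem_H0] at h0
    rw [aff_val, mge_mat] at h1
    rw [aff_inv_val, mge_mat] at h2
    obtain ⟨h3, h4, -, h5⟩ := h1
    obtain ⟨h6, h8, -, h7⟩ := h2
    rw [ge_ne one_ne_zero, v_one] at h5 h7
    rw [ge_ne hp] at h3
    rw [ge_ne (inv_ne_zero hp), v_inv hp] at h6
    have hm : m = 0 ∨ m = -1 := by omega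
    rcases hm with rfl | rfl
    · left
      refine ⟨?_, h4⟩
      by_contra h9
      exact h0 ⟨by omega, h4⟩
    · right
      refine ⟨?_, h4⟩
      by_contra h9
      have h10 : V.v p = 0 := by omega
      refine h0 ⟨h10, ?_⟩
      have h11 := ge_neg h8
      rw [neg_neg (p⁻¹ * q)] at h11
      have h12 : V.Ge 0 (p⁻¹ * q) := ge_mono (by norm_num) h11
      rw [key, h10] at h12
      exact h12
  · rintro (⟨h1, h2⟩ | ⟨h1, h2⟩)
    · refine ⟨⟨0, ?_, ?_⟩, fun h => ?_⟩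
      · rw [aff_val, mge_mat]
        exact ⟨(ge_ne hp).2 (by omega), h2, ge_zero _, ge_one⟩
      · rw [aff_inv_val, mge_mat]
        refine ⟨(ge_ne (inv_ne_zero hp)).2 (by rw [v_inv hp]; omega), ge_neg ?_, ge_zero _,
          ge_mono (by norm_num) ge_one⟩
        rw [ge_mul_left (inv_ne_zero hp), v_inv hp]
        exact ge_mono (by omega) h2
      · rw [aff_mem_H0] at h
        omega
    · refine ⟨⟨-1, ?_, ?_⟩, fun h => ?_⟩
      · rw [aff_val, mge_mat]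
        exact ⟨(ge_ne hp).2 (by omega), h2, ge_zero _, ge_mono (by norm_num) ge_one⟩
      · rw [aff_inv_val, mge_mat]
        refine ⟨(ge_ne (inv_ne_zero hp)).2 (by rw [v_inv hp]; omega), ge_neg ?_, ge_zero _,
          ge_mono (by norm_num) ge_one⟩
        rw [ge_mul_left (inv_ne_zero hp), v_inv hp]
        exact ge_mono (by omega) h2
      · rw [aff_mem_H0] at h
        omega

/-! ### the Iwasawa decomposition -/

/-- the scalar matrix `(s, 0; 0, s)` -/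
def scl (s : D) (hs : s ≠ 0) : GLD D where
  val := !![s, 0; 0, s]
  inv := !![s⁻¹, 0; 0, s⁻¹]
  val_inv := by
    ext i j
    fin_cases i <;> fin_cases j <;> simp [Matrix.mul_apply, Fin.sum_univ_two, hs]
  inv_val := by
    ext i j
    fin_cases i <;> fin_cases j <;> simp [Matrix.mul_apply, Fin.sum_univ_two, hs]

theorem scl_mem (s : D) (hs : s ≠ 0) : scl s hs ∈ V.H0 := by
  refine ⟨V.v s, ?_, ?_⟩
  · show V.MGe _ !![s, 0; 0, s]
    rw [mge_mat]
    exact ⟨(ge_ne hs).2 le_rfl, ge_zero _, ge_zero _, (ge_ne hs).2 le_rfl⟩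
  · show V.MGe _ !![s⁻¹, 0; 0, s⁻¹]
    rw [mge_mat, ge_ne (inv_ne_zero hs), v_inv hs]
    exact ⟨le_rfl, ge_zero _, ge_zero _, le_rfl⟩

/-- the matrix `(1, 0; -x, 1)` -/
def low (x : D) : GLD D where
  val := !![1, 0; -x, 1]
  inv := !![1, 0; x, 1]
  val_inv := by
    ext i j
    fin_cases i <;> fin_cases j <;> simp [Matrix.mul_apply, Fin.sum_univ_two]
  inv_val := by
    ext i j
    fin_cases i <;> fin_cases j <;> simp [Matrix.mul_apply, Fin.sum_univ_two]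

theorem low_mem {x : D} (hx : V.Ge 0 x) : low x ∈ V.H0 := by
  refine ⟨0, ?_, ?_⟩
  · show V.MGe _ !![1, 0; -x, 1]
    rw [mge_mat]
    exact ⟨ge_one, ge_zero _, ge_neg hx, ge_one⟩
  · show V.MGe _ !![1, 0; x, 1]
    rw [mge_mat, neg_zero]
    exact ⟨ge_one, ge_zero _, hx, ge_one⟩

/-- the matrix `(-x, 1; 1, 0)` -/
def swp (x : D) : GLD D where
  val := !![-x, 1; 1, 0]
  inv := !![0, 1; 1, x]
  val_inv := by
    ext i j
    fin_cases i <;> fin_cases j <;> simp [Matrix.mul_apply, Fin.sum_univ_two]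
  inv_val := by
    ext i j
    fin_cases i <;> fin_cases j <;> simp [Matrix.mul_apply, Fin.sum_univ_two]

theorem swp_mem {x : D} (hx : V.Ge 0 x) : swp x ∈ V.H0 := by
  refine ⟨0, ?_, ?_⟩
  · show V.MGe _ !![-x, 1; 1, 0]
    rw [mge_mat]
    exact ⟨ge_neg hx, ge_one, ge_one, ge_zero _⟩
  · show V.MGe _ !![0, 1; 1, x]
    rw [mge_mat, neg_zero]
    exact ⟨ge_zero _, ge_one, ge_one, hx⟩

theorem of_upper (g : GLD D) (h0 : g.val 1 0 = 0) (h1 : g.val 1 1 = 1) :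
    ∃ (p q : D) (hp : p ≠ 0), g = aff p q hp := by
  have hp : g.val 0 0 ≠ 0 := by
    intro h
    have h2 := congrArg (fun M => M 0 0) g.inv_val
    simp [Matrix.mul_apply, Fin.sum_univ_two, h, h0] at h2
  refine ⟨g.val 0 0, g.val 0 1, hp, ?_⟩
  apply Units.ext
  rw [aff_val]
  ext i j
  fin_cases i <;> fin_cases j <;> simp [h0, h1]

theorem of_upper' (V : DV D) (g : GLD D) (h0 : g.val 1 0 = 0) :
    ∃ (p q : D) (hp : p ≠ 0), ∃ k ∈ V.H0, g * k = aff p q hp := by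
  have hs : g.val 1 1 ≠ 0 := by
    intro h
    have h2 := congrArg (fun M => M 1 1) g.val_inv
    simp [Matrix.mul_apply, Fin.sum_univ_two, h, h0] at h2
  obtain ⟨p, q, hp, h⟩ := of_upper (g * scl (g.val 1 1)⁻¹ (inv_ne_zero hs)) (by
    rw [Units.val_mul]
    show (g.val * !![(g.val 1 1)⁻¹, 0; 0, (g.val 1 1)⁻¹]) 1 0 = 0
    simp [Matrix.mul_apply, Fin.sum_univ_two, h0]) (by
    rw [Units.val_mul]
    show (g.val * !![(g.val 1 1)⁻¹, 0; 0, (g.val 1 1)⁻¹]) 1 1 = 1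
    simp [Matrix.mul_apply, Fin.sum_univ_two, hs])
  exact ⟨p, q, hp, _, scl_mem _ _, h⟩

/-- **Iwasawa decomposition** -/
theorem iwasawa (V : DV D) (g : GLD D) :
    ∃ (p q : D) (hp : p ≠ 0), ∃ k ∈ V.H0, g * k = aff p q hp := by
  obtain ⟨k, hk, h⟩ : ∃ k ∈ V.H0, (g * k).val 1 0 = 0 := by
    obtain ⟨c, hc⟩ : ∃ c, c = g.val 1 0 := ⟨_, rfl⟩
    obtain ⟨d, hd⟩ : ∃ d, d = g.val 1 1 := ⟨_, rfl⟩
    by_cases hd0 : d = 0
    · refine ⟨swp 0, swp_mem (ge_zero _), ?_⟩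
      rw [Units.val_mul]
      show (g.val * !![-0, 1; 1, 0] : Matrix (Fin 2) (Fin 2) D) 1 0 = 0
      simp [Matrix.mul_apply, Fin.sum_univ_two, ← hd, hd0]
    by_cases h : V.Ge 0 (d⁻¹ * c)
    · refine ⟨low (d⁻¹ * c), low_mem h, ?_⟩
      rw [Units.val_mul]
      show (g.val * !![1, 0; -(d⁻¹ * c), 1] : Matrix (Fin 2) (Fin 2) D) 1 0 = 0
      simp [Matrix.mul_apply, Fin.sum_univ_two, ← hd, ← hc, hd0]
    · have hc0 : c ≠ 0 := by
        rintro rfl
        rw [mul_zero] at h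
        exact h (ge_zero _)
      have hdc : V.v (d⁻¹ * c) < 0 := by
        rw [ge_ne (mul_ne_zero (inv_ne_zero hd0) hc0)] at h
        omega
      rw [V.map_mul _ _ (inv_ne_zero hd0) hc0, v_inv hd0] at hdc
      have h' : V.Ge 0 (c⁻¹ * d) := by
        right
        rw [V.map_mul _ _ (inv_ne_zero hc0) hd0, v_inv hc0]
        omega
      refine ⟨swp (c⁻¹ * d), swp_mem h', ?_⟩
      rw [Units.val_mul]
      show (g.val * !![-(c⁻¹ * d), 1; 1, 0] : Matrix (Fin 2) (Fin 2) D) 1 0 = 0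
      simp [Matrix.mul_apply, Fin.sum_univ_two, ← hd, ← hc, hc0]
  obtain ⟨p, q, hp, k', hk', h'⟩ := of_upper' V (g * k) h
  exact ⟨p, q, hp, k * k', V.H0.mul_mem hk hk', by rw [← mul_assoc]; exact h'⟩

end DV

end Pool.Agent.J6H75.BT
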