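import Mathlib
import Pool.Agent.J6H75.BT.Par
import Pool.Agent.J6H75.BT.Val

/-!
# The Bruhat-Tits tree of `GL₂` of a division ring with a discrete valuation: it is a tree
-/

set_option autoImplicit false

namespace Pool.Agent.J6H75.BT.DV

variable {D : Type} [DivisionRing D] {V : DV D}

/-- the vertices -/
abbrev Vx (V : DV D) : Type := GLD D ⧸ V.H0

/-- the vertex `g o` -/
def mkv (V : DV D) (g : GLD D) : V.Vx := QuotientGroup.mk g

theorem mkv_eq {g h : GLD D} : V.mkv g = V.mkv h ↔ g⁻¹ * h ∈ V.H0 := QuotientGroup.eq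

theorem mkv_surj (x : V.Vx) : ∃ g : GLD D, V.mkv g = x := QuotientGroup.mk_surjective x

theorem S1_congr {g h g' h' : GLD D} (hg : V.mkv g = V.mkv g') (hh : V.mkv h = V.mkv h')
    (h1 : g⁻¹ * h ∈ V.S1) : g'⁻¹ * h' ∈ V.S1 := by
  have h2 := V.H0.inv_mem (mkv_eq.1 hg)
  rw [mul_inv_rev, inv_inv] at h2
  have h3 := mul_S1 (S1_mul h1 (mkv_eq.1 hh)) h2
  have h4 : g'⁻¹ * g * (g⁻¹ * h * (h⁻¹ * h')) = g'⁻¹ * h' := by group
  rwa [h4] at h3

/-- the Bruhat-Tits tree -/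
def tree (V : DV D) : SimpleGraph V.Vx where
  Adj x y := ∃ g h : GLD D, V.mkv g = x ∧ V.mkv h = y ∧ g⁻¹ * h ∈ V.S1
  symm := ⟨by
    rintro x y ⟨g, h, hg, hh, h1⟩
    refine ⟨h, g, hh, hg, ?_⟩
    have := S1_inv h1
    rwa [mul_inv_rev, inv_inv] at this⟩
  loopless := ⟨by
    rintro x ⟨g, h, hg, hh, h1⟩
    exact h1.2 (mkv_eq.1 (hg.trans hh.symm))⟩

theorem adj_mk {g h : GLD D} : V.tree.Adj (V.mkv g) (V.mkv h) ↔ g⁻¹ * h ∈ V.S1 := by
  constructor
  · rintro ⟨g', h', hg, hh, h1⟩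
    exact S1_congr hg hh h1
  · intro h1
    exact ⟨g, h, rfl, rfl, h1⟩

theorem exists_aff (x : V.Vx) : ∃ (p q : D) (hp : p ≠ 0), x = V.mkv (aff p q hp) := by
  obtain ⟨g, rfl⟩ := mkv_surj x
  obtain ⟨p, q, hp, k, hk, h⟩ := iwasawa V g
  refine ⟨p, q, hp, ?_⟩
  rw [mkv_eq, ← h]
  simpa using hk

theorem mk_aff {p q p' q' : D} (hp : p ≠ 0) (hp' : p' ≠ 0) :
    V.mkv (aff p q hp) = V.mkv (aff p' q' hp') ↔ V.v p' = V.v p ∧ V.Ge (V.v p) (q' - q) := by
  rw [mkv_eq, aff_inv_mul, aff_mem_H0, V.map_mul _ _ (inv_ne_zero hp) hp', v_inv hp,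
    ge_mul_left (inv_ne_zero hp), v_inv hp, sub_neg_eq_add, zero_add]
  constructor
  · rintro ⟨h1, h2⟩
    exact ⟨by omega, h2⟩
  · rintro ⟨h1, h2⟩
    exact ⟨by omega, h2⟩

theorem adj_aff {p q p' q' : D} (hp : p ≠ 0) (hp' : p' ≠ 0) :
    V.tree.Adj (V.mkv (aff p q hp)) (V.mkv (aff p' q' hp')) ↔
      (V.v p' = V.v p + 1 ∧ V.Ge (V.v p) (q' - q)) ∨
      (V.v p' = V.v p - 1 ∧ V.Ge (V.v p - 1) (q' - q)) := by
  rw [adj_mk, aff_inv_mul, aff_mem_S1, V.map_mul _ _ (inv_ne_zero hp) hp', v_inv hp,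
    ge_mul_left (inv_ne_zero hp), ge_mul_left (inv_ne_zero hp), v_inv hp]
  have e1 : (0 : ℤ) - -V.v p = V.v p := by ring
  have e2 : (-1 : ℤ) - -V.v p = V.v p - 1 := by ring
  rw [e1, e2]
  constructor
  · rintro (⟨h1, h2⟩ | ⟨h1, h2⟩)
    · exact Or.inl ⟨by omega, h2⟩
    · exact Or.inr ⟨by omega, h2⟩
  · rintro (⟨h1, h2⟩ | ⟨h1, h2⟩)
    · exact Or.inl ⟨by omega, h2⟩
    · exact Or.inr ⟨by omega, h2⟩

/-- the level of a vertex -/
noncomputable def lev (V : DV D) (x : V.Vx) : ℤ := V.v (exists_aff x).choose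

theorem lev_aff {p q : D} (hp : p ≠ 0) : V.lev (V.mkv (aff p q hp)) = V.v p := by
  obtain ⟨q', hp', h⟩ := (exists_aff (V.mkv (aff p q hp))).choose_spec
  exact ((mk_aff hp hp').1 h).1

/-- the parent of a vertex -/
noncomputable def par (V : DV D) (x : V.Vx) : V.Vx :=
  V.mkv (aff ((exists_aff x).choose * V.t⁻¹) (exists_aff x).choose_spec.choose
    (mul_ne_zero (exists_aff x).choose_spec.choose_spec.choose (inv_ne_zero V.t_ne)))

theorem v_t' {p : D} (hp : p ≠ 0) : V.v (p * V.t⁻¹) = V.v p - 1 := by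
  rw [V.map_mul _ _ hp (inv_ne_zero V.t_ne), v_inv V.t_ne, V.v_t]
  ring

theorem par_aff {p q : D} (hp : p ≠ 0) : V.par (V.mkv (aff p q hp)) =
    V.mkv (aff (p * V.t⁻¹) q (mul_ne_zero hp (inv_ne_zero V.t_ne))) := by
  have h := (exists_aff (V.mkv (aff p q hp))).choose_spec.choose_spec.choose_spec
  rw [mk_aff] at h
  unfold par
  rw [eq_comm, mk_aff, v_t', v_t' hp]
  · exact ⟨by rw [h.1], ge_mono (by omega) h.2⟩
  · exact (exists_aff (V.mkv (aff p q hp))).choose_spec.choose_spec.choose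

theorem iter_par (n : ℕ) : ∀ {p q : D} (hp : p ≠ 0), ∃ (p' : D) (hp' : p' ≠ 0),
    V.v p' = V.v p - n ∧ V.par^[n] (V.mkv (aff p q hp)) = V.mkv (aff p' q hp') := by
  induction n with
  | zero => intro p q hp; exact ⟨p, hp, by simp, rfl⟩
  | succ n ih =>
    intro p q hp
    obtain ⟨p', hp', h1, h2⟩ := ih (q := q) hp
    refine ⟨p' * V.t⁻¹, mul_ne_zero hp' (inv_ne_zero V.t_ne), ?_, ?_⟩
    · rw [v_t' hp', h1]; push_cast; ring
    · rw [Function.iterate_succ_apply', h2, par_aff]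

/-- **The Bruhat-Tits tree is a tree.** -/
theorem isTree (V : DV D) : V.tree.IsTree := by
  have : Nonempty V.Vx := ⟨V.mkv 1⟩
  refine tree_of_parent V.tree V.par V.lev ?_ ?_ ?_
  · intro x
    obtain ⟨p, q, hp, rfl⟩ := exists_aff x
    rw [par_aff, lev_aff, lev_aff, v_t' hp]
  · intro x y
    obtain ⟨p, q, hp, rfl⟩ := exists_aff x
    obtain ⟨p', q', hp', rfl⟩ := exists_aff y
    rw [adj_aff, par_aff, par_aff, mk_aff, mk_aff, v_t' hp, v_t' hp']
    constructor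
    · rintro (⟨h1, h2⟩ | ⟨h1, h2⟩)
      · right
        refine ⟨by omega, ?_⟩
        have := ge_neg h2
        rw [neg_sub] at this
        exact ge_mono (by omega) this
      · left
        exact ⟨h1, h2⟩
    · rintro (⟨h1, h2⟩ | ⟨h1, h2⟩)
      · right
        exact ⟨h1, h2⟩
      · left
        refine ⟨by omega, ?_⟩
        have := ge_neg h2
        rw [neg_sub] at this
        exact ge_mono (by omega) this
  · intro x y
    obtain ⟨p, q, hp, rfl⟩ := exists_aff x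
    obtain ⟨p', q', hp', rfl⟩ := exists_aff y
    obtain ⟨L, hL⟩ : ∃ L : ℤ, L = min (min (V.v p) (V.v p')) (V.v (q' - q)) := ⟨_, rfl⟩
    have h1 : L ≤ V.v p := by rw [hL]; exact (min_le_left _ _).trans (min_le_left _ _)
    have h2 : L ≤ V.v p' := by rw [hL]; exact (min_le_left _ _).trans (min_le_right _ _)
    have h3 : L ≤ V.v (q' - q) := by rw [hL]; exact min_le_right _ _
    refine ⟨(V.v p - L).toNat, (V.v p' - L).toNat, ?_⟩
    obtain ⟨r, hr, h4, h5⟩ := iter_par (V.v p - L).toNat (q := q) hp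
    obtain ⟨r', hr', h6, h7⟩ := iter_par (V.v p' - L).toNat (q := q') hp'
    rw [h5, h7, mk_aff]
    have h8 : V.v r = L := by rw [h4, Int.toNat_of_nonneg (by omega)]; ring
    have h9 : V.v r' = L := by rw [h6, Int.toNat_of_nonneg (by omega)]; ring
    exact ⟨by rw [h8, h9], Or.inr (by rw [h8]; exact h3)⟩

end Pool.Agent.J6H75.BT.DV
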