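import Mathlib
import Pool.Agent.J6H75.BT.Tree
import Pool.Agent.N24.TR.Tree

/-!
# Groups of semilinear transformations acting on the Bruhat-Tits tree
-/

set_option autoImplicit false

namespace Pool.Agent.J6H75.BT

open Pool.Agent.Y110.FJ (ClosedE)
open DV

variable {D : Type} [DivisionRing D] {V : DV D} {Γ : Type} [Group Γ] {φ : Γ →* MulAut (GLD D)}

/-- the automorphisms preserve the valuations of the entries -/
def Pres (V : DV D) (φ : Γ →* MulAut (GLD D)) : Prop :=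
  ∀ (γ : Γ) (h : GLD D) (n : ℤ), V.MGe n h.val → V.MGe n (φ γ h).val

theorem pres_H0 (hφ : Pres V φ) (γ : Γ) {h : GLD D} (hh : h ∈ V.H0) : φ γ h ∈ V.H0 := by
  obtain ⟨m, h1, h2⟩ := hh
  refine ⟨m, hφ γ _ _ h1, ?_⟩
  rw [← map_inv]
  exact hφ γ _ _ h2

theorem pres_S1 (hφ : Pres V φ) (γ : Γ) {h : GLD D} (hh : h ∈ V.S1) : φ γ h ∈ V.S1 := by
  obtain ⟨⟨m, h1, h2⟩, h3⟩ := hh
  refine ⟨⟨m, hφ γ _ _ h1, ?_⟩, fun h4 => h3 ?_⟩
  · rw [← map_inv]
    exact hφ γ _ _ h2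
  · have h5 := pres_H0 hφ γ⁻¹ h4
    rwa [map_inv, MulAut.inv_apply_self] at h5

variable {G : Type} [Group G]

/-- the action on the vertices -/
@[reducible] def actG (hφ : Pres V φ) (ρ : G →* GLD D ⋊[φ] Γ) : MulAction G V.Vx where
  smul g := Quotient.map' (fun h => (ρ g).left * φ (ρ g).right h) (by
    intro a b hab
    rw [QuotientGroup.leftRel_apply] at hab ⊢
    have h1 : ((ρ g).left * φ (ρ g).right a)⁻¹ * ((ρ g).left * φ (ρ g).right b) =
        φ (ρ g).right (a⁻¹ * b) := by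
      rw [_root_.map_mul, map_inv]
      group
    show ((ρ g).left * φ (ρ g).right a)⁻¹ * ((ρ g).left * φ (ρ g).right b) ∈ V.H0
    rw [h1]
    exact pres_H0 hφ _ hab)
  one_smul x := by
    obtain ⟨h, rfl⟩ := mkv_surj x
    show V.mkv ((ρ 1).left * φ (ρ 1).right h) = V.mkv h
    simp
  mul_smul g g' x := by
    obtain ⟨h, rfl⟩ := mkv_surj x
    show V.mkv ((ρ (g * g')).left * φ (ρ (g * g')).right h) =
      V.mkv ((ρ g).left * φ (ρ g).right ((ρ g').left * φ (ρ g').right h))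
    simp [mul_assoc]

theorem criterion {C : ∀ (G : Type) [Group G], Prop} (hC : ClosedE C) (V : DV D)
    (φ : Γ →* MulAut (GLD D)) (hφ : Pres V φ) (ρ : G →* GLD D ⋊[φ] Γ)
    (h0 : ∀ g, ∃ i j, (ρ g).left.val i j ≠ 0 ∧ V.v ((ρ g).left.val i j) ≤ 0)
    (hd : ∀ n : ℕ, ∃ (P : Type) (_ : Group P) (f : G →* P), C P ∧
      ∀ g, f g = 1 → V.MGe (-n) (ρ g).left.val → g = 1) : C G := by
  let _ : MulAction G V.Vx := actG hφ ρ
  have hsm : ∀ (g : G) (h : GLD D), g • V.mkv h = V.mkv ((ρ g).left * φ (ρ g).right h) :=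
    fun g h => rfl
  refine Pool.Agent.N24.TR.tree_local hC (isTree V) ?_ ?_
  · intro g x y hxy
    obtain ⟨a, rfl⟩ := mkv_surj x
    obtain ⟨b, rfl⟩ := mkv_surj y
    rw [hsm, hsm, adj_mk]
    rw [adj_mk] at hxy
    have h1 : ((ρ g).left * φ (ρ g).right a)⁻¹ * ((ρ g).left * φ (ρ g).right b) =
        φ (ρ g).right (a⁻¹ * b) := by
      rw [_root_.map_mul, map_inv]
      group
    rw [h1]
    exact pres_S1 hφ _ hxy
  intro x
  obtain ⟨g0, rfl⟩ := mkv_surj x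
  obtain ⟨a, ha⟩ := exists_mge (V := V) g0.val
  obtain ⟨b, hb⟩ := exists_mge (V := V) (g0⁻¹).val
  obtain ⟨P, _, f, hCP, hf⟩ := hd (-(a + b)).toNat
  refine ⟨P, inferInstance, f, hCP, fun g hgx hfg => hf g hfg ?_⟩
  obtain ⟨u, hu⟩ : ∃ u : G → GLD D, ∀ g, u g = g0⁻¹ * ((ρ g).left * φ (ρ g).right g0) :=
    ⟨_, fun _ => rfl⟩
  have hu1 : u 1 = 1 := by rw [hu]; simp
  have hum : ∀ g g', u (g * g') = u g * φ (ρ g).right (u g') := by
    intro g g'
    rw [hu, hu, hu]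
    simp only [_root_.map_mul, SemidirectProduct.mul_left, SemidirectProduct.mul_right, MulAut.mul_apply,
      map_inv]
    group
  have hleft : ∀ g, (ρ g).left = g0 * u g * φ (ρ g).right g0⁻¹ := by
    intro g
    rw [hu, map_inv]
    group
  have hpow : ∀ (g : G) (m : ℤ), V.MGe m (u g).val → ∀ j : ℕ, V.MGe (j * m) (u (g ^ j)).val := by
    intro g m hm j
    induction j with
    | zero => rw [pow_zero, hu1]; simpa using mge_one
    | succ j ih =>
      rw [pow_succ, hum, Units.val_mul]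
      have := mge_mul ih (hφ (ρ (g ^ j)).right _ _ hm)
      rwa [show ((j : ℤ) * m + m) = ((j + 1 : ℕ) : ℤ) * m by push_cast; ring] at this
  have hbound : ∀ (g : G) (m : ℤ), V.MGe m (u g).val → V.MGe (a + m + b) (ρ g).left.val := by
    intro g m hm
    rw [hleft, Units.val_mul, Units.val_mul]
    exact mge_mul (mge_mul ha hm) (hφ _ _ _ hb)
  have key : ∀ (g : G) (m : ℤ), V.MGe m (u g).val → m ≤ 0 := by
    intro g m hm
    by_contra hcon
    push Not at hcon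
    obtain ⟨j, hj⟩ : ∃ j : ℕ, 0 < a + (j : ℤ) * m + b := by
      refine ⟨(1 - (a + b)).toNat, ?_⟩
      have h1 : (1 - (a + b)) ≤ ((1 - (a + b)).toNat : ℤ) := Int.self_le_toNat _
      nlinarith
    have h1 := hbound (g ^ j) _ (hpow g m hm j)
    obtain ⟨i, k, h2, h3⟩ := h0 (g ^ j)
    have h4 := (ge_ne h2).1 (h1 i k)
    omega
  have hst : u g ∈ V.H0 := by
    rw [hsm, eq_comm, mkv_eq] at hgx
    rw [hu]
    exact hgx
  obtain ⟨m, h1, h2⟩ := hst
  have h3 := key g m h1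
  have h4 : u g⁻¹ = φ (ρ g⁻¹).right (u g)⁻¹ := by
    have h5 := hum g⁻¹ g
    rw [inv_mul_cancel, hu1] at h5
    rw [map_inv]
    exact eq_inv_of_mul_eq_one_left h5.symm
  have h5 : V.MGe (-m) (u g⁻¹).val := by
    rw [h4]
    exact hφ _ _ _ h2
  have h6 := key _ _ h5
  have h7 : m = 0 := by omega
  subst h7
  refine mge_mono ?_ (hbound g 0 h1)
  have h8 : -(a + b) ≤ ((-(a + b)).toNat : ℤ) := Int.self_le_toNat _
  omega

end Pool.Agent.J6H75.BT
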