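import Mathlib
import Pool.Agent.R942.FJ.Det

/-!
# Solvable kernels
-/

set_option autoImplicit false

namespace Pool.Agent.J6H75.BT

open Pool.Agent.Y110.FJ (ClosedE)

variable {C : ∀ (G : Type) [Group G], Prop}

/-- extensions with a solvable kernel -/
theorem solv_ker (hC : ClosedE C) (hsol : ∀ (S : Type) [Group S], Group.IsSolvable S → C S)
    {G H : Type} [Group G] [Group H] (f : G →* H) (hH : C H) (hs : Group.IsSolvable f.ker) :
    C G := by
  refine Pool.Agent.R942.FJ.main_detected hC f.ker ?_ ?_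
  · intro g E _ _
    exact ⟨_, inferInstance, MonoidHom.id _, hsol _ (Pool.Agent.R942.FJ.solv_sup f.ker hs g),
      fun x _ hx => hx⟩
  · exact hC.base.of_injective _ _ (QuotientGroup.kerLift f) (QuotientGroup.kerLift_injective f) hH

theorem solv_chain {X : Type} [Group X] (L : ℕ → Subgroup X)
    (hL : ∀ i, ⁅L i, L i⁆ ≤ L (i + 1)) (n : ℕ) (hn : L n = ⊥) : Group.IsSolvable ↥(L 0) := by
  have key : ∀ i, (derivedSeries ↥(L 0) i).map (L 0).subtype ≤ L i := by
    intro i
    induction i with
    | zero =>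
      rw [derivedSeries_zero, ← MonoidHom.range_eq_map, Subgroup.range_subtype]
    | succ i ih =>
      rw [derivedSeries_succ, Subgroup.map_commutator]
      exact (Subgroup.commutator_mono ih ih).trans (hL i)
  refine ⟨⟨n, ?_⟩⟩
  have h1 := key n
  rw [hn, le_bot_iff] at h1
  exact (Subgroup.map_eq_bot_iff_of_injective _ (L 0).subtype_injective).1 h1

/-- quotients by the terms of a chain of normal subgroups with commutative factors -/
theorem chain (hC : ClosedE C) (hsol : ∀ (S : Type) [Group S], Group.IsSolvable S → C S)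
    {G H : Type} [Group G] [Group H] (hH : C H) (f : G →* H) (K : ℕ → Subgroup G)
    (hK : ∀ i, (K i).Normal) (h0 : f.ker = K 0) (hanti : Antitone K)
    (hcomm : ∀ i, ⁅K i, K i⁆ ≤ K (i + 1)) (n : ℕ) : C (G ⧸ K n) := by
  have hKn := hK n
  have hle : K n ≤ f.ker := by rw [h0]; exact hanti (Nat.zero_le n)
  refine solv_ker hC hsol (QuotientGroup.lift (K n) f hle) hH ?_
  have h1 : (QuotientGroup.lift (K n) f hle).ker = (K 0).map (QuotientGroup.mk' (K n)) := by
    ext x
    obtain ⟨g, rfl⟩ := QuotientGroup.mk'_surjective (K n) x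
    constructor
    · intro hx
      refine ⟨g, ?_, rfl⟩
      rw [← h0]
      exact hx
    · rintro ⟨g', hg', hgg⟩
      rw [← hgg]
      rw [← h0] at hg'
      exact hg'
  rw [h1]
  refine solv_chain (fun i => (K i).map (QuotientGroup.mk' (K n))) (fun i => ?_) n ?_
  · show ⁅(K i).map _, (K i).map _⁆ ≤ _
    rw [← Subgroup.map_commutator]
    exact Subgroup.map_mono (hcomm i)
  · show (K n).map _ = ⊥
    rw [Subgroup.map_eq_bot_iff, QuotientGroup.ker_mk']

end Pool.Agent.J6H75.BT
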