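import Mathlib
import Pool.Agent.J6H75.BT.Crit
import Pool.Agent.J6H75.BT.Solv
import Pool.Agent.J6H75.BT.Cong

/-!
# `GL₂` of rings with a place at infinity
-/

set_option autoImplicit false

namespace Pool.Agent.J6H75.BT

open Pool.Agent.Y110.FJ (ClosedE)
open DV

variable {C : ∀ (G : Type) [Group G], Prop}

section

variable {A D Γ : Type} [Ring A] [DivisionRing D] [Group Γ] {s : Γ →* (A ≃+* A)}
  {sD : Γ →* (D ≃+* D)}

theorem pres_of {V : DV D} (hv : ∀ γ x, V.v (sD γ x) = V.v x) :
    Pres V ((glAut D).comp sD) := by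
  intro γ h n hn i j
  show V.Ge n (sD γ (h.val i j))
  rcases hn i j with h1 | h1
  · exact Or.inl (by rw [h1, map_zero])
  · exact Or.inr (by rwa [hv])

/-- change of rings -/
def glMap {A B : Type} [Ring A] [Ring B] (ι : A →+* B) : GL2 A →* GL2 B :=
  Units.map (RingHom.mapMatrix (m := Fin 2) ι).toMonoidHom

theorem glMap_val {A B : Type} [Ring A] [Ring B] (ι : A →+* B) (g : GL2 A) (i j : Fin 2) :
    (glMap ι g).val i j = ι (g.val i j) := rfl

/-- change of rings -/
def gaMap {A B : Type} [Ring A] [Ring B] (s : Γ →* (A ≃+* A)) (s' : Γ →* (B ≃+* B))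
    (ι : A →+* B) (heq : ∀ γ a, ι (s γ a) = s' γ (ι a)) : GaL s →* GaL s' :=
  SemidirectProduct.map (glMap ι) (MonoidHom.id Γ) (by
    intro γ
    ext g i j
    exact heq γ (g.val i j))

theorem gaMap_left {A B : Type} [Ring A] [Ring B] (s : Γ →* (A ≃+* A)) (s' : Γ →* (B ≃+* B))
    (ι : A →+* B) (heq : ∀ γ a, ι (s γ a) = s' γ (ι a)) (x : GaL s) :
    (gaMap s s' ι heq x).left = glMap ι x.left := rfl

theorem gaMap_right {A B : Type} [Ring A] [Ring B] (s : Γ →* (A ≃+* A)) (s' : Γ →* (B ≃+* B))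
    (ι : A →+* B) (heq : ∀ γ a, ι (s γ a) = s' γ (ι a)) (x : GaL s) :
    (gaMap s s' ι heq x).right = x.right := rfl

theorem gaMap_ker {A B : Type} [Ring A] [Ring B] (s : Γ →* (A ≃+* A)) (s' : Γ →* (B ≃+* B))
    (ι : A →+* B) (heq : ∀ γ a, ι (s γ a) = s' γ (ι a)) (J : Ideal A) (hJ : Inv s J)
    (h : ∀ a, ι a = 0 ↔ a ∈ J) : (gaMap s s' ι heq).ker = Kc s J hJ := by
  ext x
  rw [MonoidHom.mem_ker, mem_Kc, SemidirectProduct.ext_iff, gaMap_left, gaMap_right, and_comm,
    SemidirectProduct.one_left, SemidirectProduct.one_right]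
  refine and_congr_right fun _ => ?_
  rw [Units.ext_iff]
  constructor
  · intro h1 i j
    rw [← h, Matrix.sub_apply, map_sub, ← glMap_val, h1, sub_eq_zero, Units.val_one]
    by_cases hij : i = j
    · rw [hij, Matrix.one_apply_eq, Matrix.one_apply_eq, map_one]
    · rw [Matrix.one_apply_ne hij, Matrix.one_apply_ne hij, map_zero]
  · intro h1
    ext i j
    have h2 := h1 i j
    rw [← h, Matrix.sub_apply, map_sub, ← glMap_val, sub_eq_zero] at h2
    rw [h2, Units.val_one]
    by_cases hij : i = j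
    · rw [hij, Matrix.one_apply_eq, Matrix.one_apply_eq, map_one]
    · rw [Matrix.one_apply_ne hij, Matrix.one_apply_ne hij, map_zero]

/-- **Rings with a place at infinity.** -/
theorem ring_crit (hC : ClosedE C) (V : DV D) (ι : A →+* D)
    (heq : ∀ γ a, ι (s γ a) = sD γ (ι a)) (hv : ∀ γ x, V.v (sD γ x) = V.v x)
    (hneg : ∀ a, a ≠ 0 → ι a ≠ 0 ∧ V.v (ι a) ≤ 0)
    (hd : ∀ n : ℕ, ∃ (J : Ideal A) (hJ : Inv s J) (P : Type) (_ : Group P) (f : GaL s →* P),
      C P ∧ f.ker ≤ Kc s J hJ ∧ ∀ a ∈ J, a ≠ 0 → V.v (ι a) < -n) :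
    C (GaL s) := by
  have hnt : (1 : A) ≠ 0 := by
    intro h
    have h1 := congrArg ι h
    rw [map_one, map_zero] at h1
    exact one_ne_zero h1
  refine criterion hC V ((glAut D).comp sD) (pres_of hv) (gaMap s sD ι heq) ?_ ?_
  · intro g
    by_contra hcon
    push Not at hcon
    have h1 : g.left.val = 0 := by
      ext i j
      by_contra h2
      have h3 := hneg _ h2
      exact absurd (hcon i j h3.1) (not_lt.2 h3.2)
    have h2 := g.left.val_inv
    rw [h1, zero_mul] at h2
    have h3 := congrArg (fun M => M 0 0) h2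
    simp only [Matrix.zero_apply, Matrix.one_apply_eq] at h3
    exact hnt h3.symm
  · intro n
    obtain ⟨J, hJ, P, _, f, hP, hf, hJn⟩ := hd n
    refine ⟨P, inferInstance, f, hP, fun g hg hb => ?_⟩
    obtain ⟨h1, h2⟩ := hf hg
    have h3 : g.left = 1 := by
      apply Units.ext
      rw [← sub_eq_zero, Units.val_one]
      ext i j
      by_contra h4
      rw [Matrix.zero_apply] at h4
      have h5 := hJn _ (h2 i j) h4
      have h6 : V.Ge (-n) (ι ((g.left.val - 1) i j)) := by
        rw [Matrix.sub_apply, map_sub, sub_eq_add_neg]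
        refine ge_add (hb i j) (ge_neg ?_)
        have h7 : V.Ge (-n) ((1 : Matrix (Fin 2) (Fin 2) D) i j) :=
          ge_mono (by omega) (mge_one i j)
        by_cases hij : i = j
        · rw [hij, Matrix.one_apply_eq, map_one]
          rw [hij, Matrix.one_apply_eq] at h7
          exact h7
        · rw [Matrix.one_apply_ne hij, map_zero]
          exact ge_zero _
      rw [ge_ne (hneg _ h4).1] at h6
      omega
    exact SemidirectProduct.ext h3 h1

end

end Pool.Agent.J6H75.BT
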