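import Mathlib
import Pool.Agent.J6H75.BT.Ring

/-!
# Degree functions on commutative domains
-/

set_option autoImplicit false

namespace Pool.Agent.J6H75.BT

open Pool.Agent.Y110.FJ (ClosedE)


variable {C : ∀ (G : Type) [Group G], Prop}

/-- A degree function on a domain. -/
structure IsDegree {A : Type} [CommRing A] (deg : A → ℕ) : Prop where
  mul : ∀ a b : A, a ≠ 0 → b ≠ 0 → deg (a * b) = deg a + deg b
  add : ∀ a b : A, a ≠ 0 → b ≠ 0 → a + b ≠ 0 → deg (a + b) ≤ max (deg a) (deg b)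

section

variable {A : Type} [CommRing A] [IsDomain A] {deg : A → ℕ}

/-- the valuation on the field of fractions, not normalized -/
noncomputable def v0 (deg : A → ℕ) (x : FractionRing A) : ℤ :=
  (deg (IsLocalization.sec (nonZeroDivisors A) x).2.1 : ℤ) -
    deg (IsLocalization.sec (nonZeroDivisors A) x).1

theorem exists_frac (x : FractionRing A) (hx : x ≠ 0) : ∃ c d : A, c ≠ 0 ∧ d ≠ 0 ∧
    x * algebraMap A (FractionRing A) d = algebraMap A (FractionRing A) c ∧
    v0 deg x = (deg d : ℤ) - deg c := by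
  have h1 := IsLocalization.sec_spec (nonZeroDivisors A) x
  have hd : (IsLocalization.sec (nonZeroDivisors A) x).2.1 ≠ 0 :=
    nonZeroDivisors.ne_zero (IsLocalization.sec (nonZeroDivisors A) x).2.2
  refine ⟨_, _, ?_, hd, h1, rfl⟩
  intro h
  rw [h, map_zero] at h1
  rcases mul_eq_zero.1 h1 with h2 | h2
  · exact hx h2
  · exact hd ((map_eq_zero_iff _ (IsFractionRing.injective A (FractionRing A))).1 h2)

theorem v0_eq (hdeg : IsDegree deg) {x : FractionRing A} {c d : A} (hc : c ≠ 0) (hd : d ≠ 0)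
    (h : x * algebraMap A (FractionRing A) d = algebraMap A (FractionRing A) c) :
    v0 deg x = (deg d : ℤ) - deg c := by
  have hinj := IsFractionRing.injective A (FractionRing A)
  have hx : x ≠ 0 := by
    rintro rfl
    rw [zero_mul, eq_comm, map_eq_zero_iff _ hinj] at h
    exact hc h
  obtain ⟨c', d', hc', hd', h', e⟩ := exists_frac (deg := deg) x hx
  rw [e]
  have h1 : c * d' = c' * d := by
    apply hinj
    rw [_root_.map_mul, _root_.map_mul, ← h, ← h']
    ring
  have h2 := congrArg deg h1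
  rw [hdeg.mul _ _ hc hd', hdeg.mul _ _ hc' hd] at h2
  omega

theorem v0_mul (hdeg : IsDegree deg) (x y : FractionRing A) (hx : x ≠ 0) (hy : y ≠ 0) :
    v0 deg (x * y) = v0 deg x + v0 deg y := by
  obtain ⟨c, d, hc, hd, h, e⟩ := exists_frac (deg := deg) x hx
  obtain ⟨c', d', hc', hd', h', e'⟩ := exists_frac (deg := deg) y hy
  rw [v0_eq hdeg (x := x * y) (mul_ne_zero hc hc') (mul_ne_zero hd hd') (by
    rw [_root_.map_mul, _root_.map_mul, ← h, ← h']; ring), e, e', hdeg.mul _ _ hc hc', hdeg.mul _ _ hd hd']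
  push_cast
  ring

theorem v0_add (hdeg : IsDegree deg) (x y : FractionRing A) (hx : x ≠ 0) (hy : y ≠ 0)
    (hxy : x + y ≠ 0) : min (v0 deg x) (v0 deg y) ≤ v0 deg (x + y) := by
  have hinj := IsFractionRing.injective A (FractionRing A)
  obtain ⟨c, d, hc, hd, h, e⟩ := exists_frac (deg := deg) x hx
  obtain ⟨c', d', hc', hd', h', e'⟩ := exists_frac (deg := deg) y hy
  have h1 : (x + y) * algebraMap A (FractionRing A) (d * d') =
      algebraMap A (FractionRing A) (c * d' + c' * d) := by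
    rw [_root_.map_mul, map_add, _root_.map_mul, _root_.map_mul, ← h, ← h']
    ring
  have hne : c * d' + c' * d ≠ 0 := by
    intro h2
    rw [h2, map_zero] at h1
    rcases mul_eq_zero.1 h1 with h3 | h3
    · exact hxy h3
    · exact mul_ne_zero hd hd' ((map_eq_zero_iff _ hinj).1 h3)
  rw [v0_eq hdeg hne (mul_ne_zero hd hd') h1, e, e', hdeg.mul _ _ hd hd']
  have h2 := hdeg.add _ _ (mul_ne_zero hc hd') (mul_ne_zero hc' hd) hne
  rw [hdeg.mul _ _ hc hd', hdeg.mul _ _ hc' hd] at h2
  rcases le_max_iff.1 h2 with h3 | h3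
  · exact (min_le_left _ _).trans (by push_cast; omega)
  · exact (min_le_right _ _).trans (by push_cast; omega)

theorem v0_one (hdeg : IsDegree deg) : v0 deg (1 : FractionRing A) = 0 := by
  have := v0_mul hdeg (1 : FractionRing A) 1 one_ne_zero one_ne_zero
  rw [mul_one] at this
  omega

theorem v0_inv (hdeg : IsDegree deg) (x : FractionRing A) (hx : x ≠ 0) :
    v0 deg x⁻¹ = - v0 deg x := by
  have := v0_mul hdeg x x⁻¹ hx (inv_ne_zero hx)
  rw [mul_inv_cancel₀ hx, v0_one hdeg] at this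
  omega

theorem v0_alg (hdeg : IsDegree deg) {a : A} (ha : a ≠ 0) :
    v0 deg (algebraMap A (FractionRing A) a) = - (deg a : ℤ) := by
  rw [v0_eq hdeg ha one_ne_zero (by rw [map_one, mul_one])]
  have h1 := hdeg.mul 1 1 one_ne_zero one_ne_zero
  rw [mul_one] at h1
  omega

/-- the normalized valuation -/
theorem exists_DV (hdeg : IsDegree deg) (h : ∃ a : A, a ≠ 0 ∧ deg a ≠ 0) :
    ∃ (V : DV (FractionRing A)) (e : ℤ), 0 < e ∧ ∀ x, x ≠ 0 → v0 deg x = e * V.v x := by
  obtain ⟨H, hH⟩ : ∃ H : AddSubgroup ℤ, ∀ n, n ∈ H ↔ ∃ x : FractionRing A, x ≠ 0 ∧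
      v0 deg x = n := by
    refine ⟨{ carrier := {n | ∃ x : FractionRing A, x ≠ 0 ∧ v0 deg x = n}
              add_mem' := ?_, zero_mem' := ?_, neg_mem' := ?_ }, fun n => Iff.rfl⟩
    · rintro _ _ ⟨x, hx, rfl⟩ ⟨y, hy, rfl⟩
      exact ⟨x * y, mul_ne_zero hx hy, v0_mul hdeg x y hx hy⟩
    · exact ⟨1, one_ne_zero, v0_one hdeg⟩
    · rintro _ ⟨x, hx, rfl⟩
      exact ⟨x⁻¹, inv_ne_zero hx, v0_inv hdeg x hx⟩
  obtain ⟨a0, ha0⟩ := Int.subgroup_cyclic H
  have hmem : ∀ n, n ∈ H ↔ ∃ k : ℤ, n = |a0| * k := by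
    intro n
    rw [ha0, AddSubgroup.mem_closure_singleton]
    constructor
    · rintro ⟨k, rfl⟩
      rcases abs_choice a0 with h1 | h1
      · exact ⟨k, by rw [h1, smul_eq_mul, mul_comm]⟩
      · exact ⟨-k, by rw [h1, smul_eq_mul]; ring⟩
    · rintro ⟨k, rfl⟩
      rcases abs_choice a0 with h1 | h1
      · exact ⟨k, by rw [h1, smul_eq_mul, mul_comm]⟩
      · exact ⟨-k, by rw [h1, smul_eq_mul]; ring⟩
  have hpos : 0 < |a0| := by
    rw [abs_pos]
    rintro rfl
    obtain ⟨a, ha, hd⟩ := h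
    have h1 : -(deg a : ℤ) ∈ H := (hH _).2 ⟨algebraMap A _ a,
      (map_ne_zero_iff _ (IsFractionRing.injective A (FractionRing A))).2 ha, v0_alg hdeg ha⟩
    obtain ⟨k, hk⟩ := (hmem _).1 h1
    rw [abs_zero, zero_mul] at hk
    omega
  obtain ⟨t, ht, hvt⟩ := (hH |a0|).1 ((hmem _).2 ⟨1, by ring⟩)
  have hk : ∀ x : FractionRing A, ∃ k : ℤ, x ≠ 0 → v0 deg x = |a0| * k := by
    intro x
    by_cases hx : x = 0
    · exact ⟨0, fun h => absurd hx h⟩
    · obtain ⟨k, hk⟩ := (hmem _).1 ((hH _).2 ⟨x, hx, rfl⟩)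
      exact ⟨k, fun _ => hk⟩
  choose k hk using hk
  refine ⟨{ v := k, map_mul := ?_, map_add := ?_, t := t, t_ne := ht, v_t := ?_ }, |a0|, hpos,
    fun x hx => hk x hx⟩
  · intro x y hx hy
    have h1 := v0_mul hdeg x y hx hy
    rw [hk _ (mul_ne_zero hx hy), hk x hx, hk y hy, ← mul_add] at h1
    exact mul_left_cancel₀ hpos.ne' h1
  · intro x y hx hy hxy
    have h1 := v0_add hdeg x y hx hy hxy
    rw [hk _ hxy, hk x hx, hk y hy] at h1
    rcases le_total (k x) (k y) with h2 | h2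
    · rw [min_eq_left h2]
      rw [min_eq_left (mul_le_mul_of_nonneg_left h2 hpos.le)] at h1
      exact le_of_mul_le_mul_left h1 hpos
    · rw [min_eq_right h2]
      rw [min_eq_right (mul_le_mul_of_nonneg_left h2 hpos.le)] at h1
      exact le_of_mul_le_mul_left h1 hpos
  · rw [hk t ht] at hvt
    exact mul_left_cancel₀ hpos.ne' (hvt.trans (mul_one _).symm)

variable {Γ : Type} [Group Γ] {s : Γ →* (A ≃+* A)}

/-- **Commutative domains with a degree function.** -/
theorem comm_crit (hC : ClosedE C) (hdeg : IsDegree deg) (hs : ∀ γ a, deg (s γ a) = deg a)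
    (hd : ∀ n : ℕ, ∃ (J : Ideal A) (hJ : Inv s J) (P : Type) (_ : Group P) (f : GaL s →* P),
      C P ∧ f.ker ≤ Kc s J hJ ∧ ∀ a ∈ J, a ≠ 0 → n < deg a) :
    C (GaL s) := by
  have hinj := IsFractionRing.injective A (FractionRing A)
  by_cases h : ∃ a : A, a ≠ 0 ∧ deg a ≠ 0
  · obtain ⟨V, e, he, hV⟩ := exists_DV hdeg h
    refine ring_crit hC V (algebraMap A (FractionRing A))
      (sD := (IsFractionRing.ringEquivOfRingEquivHom A (FractionRing A)).comp s) ?_ ?_ ?_ ?_
    · intro γ a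
      show _ = IsFractionRing.ringEquivOfRingEquiv (s γ) _
      rw [IsFractionRing.ringEquivOfRingEquiv_algebraMap]
    · intro γ x
      by_cases hx : x = 0
      · rw [hx, map_zero]
      have hx' : ((IsFractionRing.ringEquivOfRingEquivHom A (FractionRing A)).comp s) γ x ≠ 0 := by
        rwa [ne_eq, map_eq_zero_iff _ (RingEquiv.injective _)]
      apply mul_left_cancel₀ he.ne'
      rw [← hV _ hx', ← hV x hx]
      obtain ⟨c, d, hc, hd', h1, h2⟩ := exists_frac (deg := deg) x hx
      rw [h2, ← hs γ c, ← hs γ d]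
      apply v0_eq hdeg
      · rwa [ne_eq, map_eq_zero_iff _ (RingEquiv.injective _)]
      · rwa [ne_eq, map_eq_zero_iff _ (RingEquiv.injective _)]
      · have h3 := congrArg (IsFractionRing.ringEquivOfRingEquiv (K := FractionRing A)
          (L := FractionRing A) (s γ)) h1
        rw [_root_.map_mul, IsFractionRing.ringEquivOfRingEquiv_algebraMap,
          IsFractionRing.ringEquivOfRingEquiv_algebraMap] at h3
        exact h3
    · intro a ha
      have h1 : algebraMap A (FractionRing A) a ≠ 0 := (map_ne_zero_iff _ hinj).2 ha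
      refine ⟨h1, ?_⟩
      have h2 := hV _ h1
      rw [v0_alg hdeg ha] at h2
      by_contra h3
      push Not at h3
      have := mul_pos he h3
      omega
    · intro n
      obtain ⟨J, hJ, P, _, f, hP, hf, hJn⟩ := hd (e * n).toNat
      refine ⟨J, hJ, P, inferInstance, f, hP, hf, fun a ha ha0 => ?_⟩
      have h1 : algebraMap A (FractionRing A) a ≠ 0 := (map_ne_zero_iff _ hinj).2 ha0
      have h2 := hV _ h1
      rw [v0_alg hdeg ha0] at h2
      have h3 := hJn a ha ha0
      by_contra h4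
      push Not at h4
      have h5 : e * (-(n : ℤ)) ≤ e * V.v (algebraMap A (FractionRing A) a) :=
        mul_le_mul_of_nonneg_left h4 he.le
      rw [← h2] at h5
      have h6 : e * (n : ℤ) ≤ ((e * n).toNat : ℤ) := Int.self_le_toNat _
      have h7 : e * (-(n : ℤ)) = -(e * n) := by ring
      omega
  · push Not at h
    obtain ⟨J, hJ, P, _, f, hP, hf, hJn⟩ := hd 0
    refine hC.base.of_injective _ _ f ?_ hP
    rw [injective_iff_map_eq_one]
    intro g hg
    obtain ⟨h1, h2⟩ := hf hg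
    refine SemidirectProduct.ext ?_ h1
    apply Units.ext
    rw [← sub_eq_zero, SemidirectProduct.one_left, Units.val_one]
    ext i j
    by_contra h4
    rw [Matrix.zero_apply] at h4
    have h5 := hJn _ (h2 i j) h4
    have h6 := h _ h4
    omega

end

end Pool.Agent.J6H75.BT
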