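import Mathlib
import Pool.Agent.J6H75.BT.Deg

/-!
# Graded domains
-/

set_option autoImplicit false

namespace Pool.Agent.J6H75.BT

open Pool.Agent.Y110.FJ (ClosedE)
open DirectSum

variable {C : ∀ (G : Type) [Group G], Prop}

section

variable {A σ : Type} [CommRing A] [SetLike σ A] [AddSubgroupClass σ A] (𝒜 : ℕ → σ) [GradedRing 𝒜]

/-- the homogeneous components -/
def cp (a : A) (k : ℕ) : A := (decompose 𝒜 a k : A)

theorem cp_add (a b : A) (k : ℕ) : cp 𝒜 (a + b) k = cp 𝒜 a k + cp 𝒜 b k := by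
  unfold cp
  rw [decompose_add]
  rfl

theorem cp_zero (k : ℕ) : cp 𝒜 (0 : A) k = 0 := by
  unfold cp
  rw [decompose_zero]
  rfl

theorem cp_neg (a : A) (k : ℕ) : cp 𝒜 (-a) k = - cp 𝒜 a k := by
  unfold cp
  rw [decompose_neg]
  rfl

theorem cp_hom {a : A} {j : ℕ} (ha : a ∈ 𝒜 j) (k : ℕ) : cp 𝒜 a k = if k = j then a else 0 := by
  unfold cp
  split_ifs with h
  · rw [h]; exact decompose_of_mem_same 𝒜 ha
  · exact decompose_of_mem_ne 𝒜 ha (Ne.symm h)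

theorem cp_mem (a : A) (k : ℕ) : cp 𝒜 a k ∈ 𝒜 k := (decompose 𝒜 a k).2

theorem cp_mul (a b : A) (n : ℕ) :
    cp 𝒜 (a * b) n = ∑ i ∈ Finset.range (n + 1), cp 𝒜 a i * cp 𝒜 b (n - i) := by
  induction a using DirectSum.Decomposition.inductionOn 𝒜 with
  | zero => simp [cp_zero]
  | @homogeneous j a =>
    have h1 : cp 𝒜 ((a : A) * b) n = if j ≤ n then (a : A) * cp 𝒜 b (n - j) else 0 :=
      coe_decompose_mul_of_left_mem 𝒜 n a.2
    rw [h1]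
    have h2 : ∀ i ∈ Finset.range (n + 1), cp 𝒜 (a : A) i * cp 𝒜 b (n - i) =
        if i = j then (a : A) * cp 𝒜 b (n - j) else 0 := by
      intro i _
      rw [cp_hom 𝒜 a.2]
      split_ifs with h
      · rw [h]
      · rw [zero_mul]
    rw [Finset.sum_congr rfl h2, Finset.sum_ite_eq']
    simp only [Finset.mem_range, Nat.lt_succ_iff]
  | add a a' h1 h2 =>
    rw [add_mul, cp_add, h1, h2, ← Finset.sum_add_distrib]
    refine Finset.sum_congr rfl fun i _ => ?_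
    rw [cp_add, add_mul]

theorem exists_cp {a : A} (ha : a ≠ 0) : ∃ k, cp 𝒜 a k ≠ 0 := by
  classical
  by_contra h
  push Not at h
  apply ha
  rw [← sum_support_decompose 𝒜 a]
  exact Finset.sum_eq_zero fun k _ => h k

theorem exists_top {a : A} (ha : a ≠ 0) : ∃ k, cp 𝒜 a k ≠ 0 ∧ ∀ r, k < r → cp 𝒜 a r = 0 := by
  classical
  have hfin : {k | cp 𝒜 a k ≠ 0}.Finite := by
    refine ((decompose 𝒜 a).support.finite_toSet).subset fun k hk => ?_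
    rw [Finset.mem_coe, DFinsupp.mem_support_iff]
    intro h
    apply hk
    unfold cp
    rw [h]
    rfl
  obtain ⟨k0, hk0⟩ := exists_cp 𝒜 ha
  obtain ⟨k, hk, hmax⟩ := hfin.exists_maximalFor id _ ⟨k0, hk0⟩
  refine ⟨k, hk, fun r hr => ?_⟩
  by_contra h
  have := hmax h hr.le
  exact absurd this (not_le.2 hr)

/-- the degree of an element of a graded ring -/
noncomputable def gdeg (a : A) : ℕ :=
  open Classical in if h : a = 0 then 0 else (exists_top 𝒜 h).choose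

theorem gdeg_spec {a : A} (ha : a ≠ 0) : cp 𝒜 a (gdeg 𝒜 a) ≠ 0 ∧
    ∀ r, gdeg 𝒜 a < r → cp 𝒜 a r = 0 := by
  unfold gdeg
  rw [dif_neg ha]
  exact (exists_top 𝒜 ha).choose_spec

theorem gdeg_eq {a : A} (ha : a ≠ 0) {m : ℕ} (h1 : cp 𝒜 a m ≠ 0)
    (h2 : ∀ r, m < r → cp 𝒜 a r = 0) : gdeg 𝒜 a = m := by
  obtain ⟨h3, h4⟩ := gdeg_spec 𝒜 ha
  by_contra h
  rcases lt_or_gt_of_ne h with h5 | h5
  · exact h1 (h4 _ h5)
  · exact h3 (h2 _ h5)

theorem isDegree [IsDomain A] : IsDegree (gdeg 𝒜) := by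
  refine ⟨fun a b ha hb => ?_, fun a b ha hb hab => ?_⟩
  · obtain ⟨h1, h2⟩ := gdeg_spec 𝒜 ha
    obtain ⟨h3, h4⟩ := gdeg_spec 𝒜 hb
    refine gdeg_eq 𝒜 (mul_ne_zero ha hb) ?_ ?_
    · rw [cp_mul, Finset.sum_eq_single (gdeg 𝒜 a)]
      · rw [Nat.add_sub_cancel_left]
        exact mul_ne_zero h1 h3
      · intro i hi hne
        rw [Finset.mem_range] at hi
        rcases lt_or_gt_of_ne hne with h5 | h5
        · rw [h4 _ (by omega), mul_zero]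
        · rw [h2 _ h5, zero_mul]
      · intro h5
        exact absurd (Finset.mem_range.2 (by omega)) h5
    · intro r hr
      rw [cp_mul]
      refine Finset.sum_eq_zero fun i hi => ?_
      rw [Finset.mem_range] at hi
      rcases le_or_gt i (gdeg 𝒜 a) with h5 | h5
      · rw [h4 _ (by omega), mul_zero]
      · rw [h2 _ h5, zero_mul]
  · obtain ⟨h1, h2⟩ := gdeg_spec 𝒜 ha
    obtain ⟨h3, h4⟩ := gdeg_spec 𝒜 hb
    obtain ⟨h5, h6⟩ := gdeg_spec 𝒜 hab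
    by_contra h7
    push Not at h7
    apply h5
    rw [cp_add, h2 _ (lt_of_le_of_lt (le_max_left _ _) h7),
      h4 _ (lt_of_le_of_lt (le_max_right _ _) h7), add_zero]

/-- the ideal of the elements without components of degree at most `n` -/
def Jn (n : ℕ) : Ideal A where
  carrier := {a | ∀ k ≤ n, cp 𝒜 a k = 0}
  add_mem' := by
    intro a b ha hb k hk
    rw [cp_add, ha k hk, hb k hk, add_zero]
  zero_mem' := fun k _ => cp_zero 𝒜 k
  smul_mem' := by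
    intro c a ha k hk
    rw [smul_eq_mul, cp_mul]
    refine Finset.sum_eq_zero fun i hi => ?_
    rw [ha _ (by omega), mul_zero]

theorem mem_Jn {n : ℕ} {a : A} : a ∈ Jn 𝒜 n ↔ ∀ k ≤ n, cp 𝒜 a k = 0 := Iff.rfl

theorem Jn_mul {n : ℕ} {a b : A} (ha : a ∈ Jn 𝒜 n) (hb : b ∈ Jn 𝒜 n) : a * b ∈ Jn 𝒜 (n + 1) := by
  intro k hk
  rw [cp_mul]
  refine Finset.sum_eq_zero fun i hi => ?_
  rw [Finset.mem_range] at hi
  rcases le_or_gt i n with h5 | h5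
  · rw [ha _ h5, zero_mul]
  · rw [hb _ (by omega), mul_zero]

theorem Jn_deg {n : ℕ} {a : A} (ha : a ∈ Jn 𝒜 n) (h0 : a ≠ 0) : n < gdeg 𝒜 a := by
  by_contra h
  push Not at h
  exact (gdeg_spec 𝒜 h0).1 (ha _ h)

theorem Jn_anti : Antitone (Jn 𝒜) := fun _ _ h _ ha k hk => ha k (hk.trans h)

variable {Γ : Type} [Group Γ] {s : Γ →* (A ≃+* A)}

theorem cp_aut (hs : ∀ γ n, ∀ a ∈ 𝒜 n, s γ a ∈ 𝒜 n) (γ : Γ) (a : A) (k : ℕ) :
    cp 𝒜 (s γ a) k = s γ (cp 𝒜 a k) := by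
  induction a using DirectSum.Decomposition.inductionOn 𝒜 with
  | zero => simp [cp_zero]
  | @homogeneous j a =>
    rw [cp_hom 𝒜 (hs γ j _ a.2), cp_hom 𝒜 a.2]
    split_ifs with h
    · rfl
    · rw [map_zero]
  | add a a' h1 h2 => rw [map_add, cp_add, cp_add, map_add, h1, h2]

theorem gdeg_aut (hs : ∀ γ n, ∀ a ∈ 𝒜 n, s γ a ∈ 𝒜 n) (γ : Γ) (a : A) :
    gdeg 𝒜 (s γ a) = gdeg 𝒜 a := by
  by_cases ha : a = 0
  · rw [ha, map_zero]
  have hinj := (s γ).injective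
  refine gdeg_eq 𝒜 (by rwa [ne_eq, map_eq_zero_iff _ hinj]) ?_ ?_
  · rw [cp_aut 𝒜 hs, ne_eq, map_eq_zero_iff _ hinj]
    exact (gdeg_spec 𝒜 ha).1
  · intro r hr
    rw [cp_aut 𝒜 hs, (gdeg_spec 𝒜 ha).2 r hr, map_zero]

theorem inv_Jn (hs : ∀ γ n, ∀ a ∈ 𝒜 n, s γ a ∈ 𝒜 n) (n : ℕ) : Inv s (Jn 𝒜 n) := by
  refine ⟨fun a ha b => Ideal.mul_mem_right _ _ ha, fun γ a ha k hk => ?_⟩
  rw [cp_aut 𝒜 hs, ha k hk, map_zero]

/-- **Graded domains.** -/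
theorem graded (hC : ClosedE C) (hsol : ∀ (S : Type) [Group S], Group.IsSolvable S → C S)
    [IsDomain A] (hs : ∀ γ n, ∀ a ∈ 𝒜 n, s γ a ∈ 𝒜 n) (s0 : Γ →* (𝒜 0 ≃+* 𝒜 0))
    (hs0 : ∀ γ (a : 𝒜 0), ((s0 γ a : 𝒜 0) : A) = s γ a) (h0 : C (GaL s0)) : C (GaL s) := by
  have hproj : ∀ a : A, ((GradedRing.projZeroRingHom' 𝒜 a : 𝒜 0) : A) = cp 𝒜 a 0 := fun a => rfl
  refine comm_crit hC (isDegree 𝒜) (gdeg_aut 𝒜 hs) fun n => ?_
  refine ⟨Jn 𝒜 n, inv_Jn 𝒜 hs n, GaL s ⧸ Kc s (Jn 𝒜 n) (inv_Jn 𝒜 hs n), ?_⟩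
  have hn := Kc_normal (s := s) (Jn 𝒜 n) (inv_Jn 𝒜 hs n)
  refine ⟨inferInstance, QuotientGroup.mk' _, ?_, ?_, fun a ha h => Jn_deg 𝒜 ha h⟩
  · refine chain hC hsol h0 (gaMap s s0 (GradedRing.projZeroRingHom' 𝒜) ?_)
      (fun n => Kc s (Jn 𝒜 n) (inv_Jn 𝒜 hs n)) (fun i => Kc_normal _ _) ?_ ?_ ?_ n
    · intro γ a
      apply Subtype.ext
      rw [hs0, hproj, hproj, cp_aut 𝒜 hs]
    · refine gaMap_ker s s0 _ _ _ _ fun a => ?_
      rw [← Subtype.coe_inj, hproj, mem_Jn]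
      constructor
      · intro h k hk
        rw [Nat.le_zero.1 hk]
        exact h
      · intro h
        exact h 0 le_rfl
    · intro i j hij
      exact Kc_mono (Jn_anti 𝒜 hij)
    · intro i
      exact Kc_comm _ _ fun a ha b hb => Jn_mul 𝒜 ha hb
  · rw [QuotientGroup.ker_mk']

/-- the same, with a ring `R` in place of `𝒜 0` -/
theorem graded' (hC : ClosedE C) (hsol : ∀ (S : Type) [Group S], Group.IsSolvable S → C S)
    [IsDomain A] (hs : ∀ γ n, ∀ a ∈ 𝒜 n, s γ a ∈ 𝒜 n) {R : Type} [CommRing R] (i : R →+* A)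
    (hi : Function.Injective i) (hr : ∀ a, a ∈ 𝒜 0 ↔ ∃ r, i r = a) (s0 : Γ →* (R ≃+* R))
    (hs0 : ∀ γ r, i (s0 γ r) = s γ (i r)) (h0 : C (GaL s0)) : C (GaL s) := by
  -- the projection to the component of degree zero
  obtain ⟨π, hπ⟩ : ∃ π : A →+* R, ∀ a, i (π a) = cp 𝒜 a 0 := by
    have hproj : ∀ a : A, ((GradedRing.projZeroRingHom' 𝒜 a : 𝒜 0) : A) = cp 𝒜 a 0 := fun a => rfl
    have hex : ∀ a : A, ∃ r, i r = cp 𝒜 a 0 := fun a => (hr _).1 (cp_mem 𝒜 a 0)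
    choose π hπ using hex
    have h1 : cp 𝒜 (1 : A) 0 = 1 := by
      rw [← hproj, map_one]
      rfl
    refine ⟨{ toFun := π, map_one' := ?_, map_mul' := ?_, map_zero' := ?_, map_add' := ?_ }, hπ⟩
    · apply hi
      rw [hπ, h1, map_one]
    · intro a b
      apply hi
      rw [hπ, map_mul, hπ, hπ, ← hproj, ← hproj, ← hproj, map_mul]
      rfl
    · apply hi
      rw [hπ, cp_zero, map_zero]
    · intro a b
      apply hi
      rw [hπ, map_add, hπ, hπ, cp_add]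
  refine comm_crit hC (isDegree 𝒜) (gdeg_aut 𝒜 hs) fun n => ?_
  refine ⟨Jn 𝒜 n, inv_Jn 𝒜 hs n, GaL s ⧸ Kc s (Jn 𝒜 n) (inv_Jn 𝒜 hs n), ?_⟩
  have hn := Kc_normal (s := s) (Jn 𝒜 n) (inv_Jn 𝒜 hs n)
  refine ⟨inferInstance, QuotientGroup.mk' _, ?_, ?_, fun a ha h => Jn_deg 𝒜 ha h⟩
  · refine chain hC hsol h0 (gaMap s s0 π ?_)
      (fun n => Kc s (Jn 𝒜 n) (inv_Jn 𝒜 hs n)) (fun i => Kc_normal _ _) ?_ ?_ ?_ n
    · intro γ a
      apply hi
      rw [hs0, hπ, hπ, cp_aut 𝒜 hs]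
    · refine gaMap_ker s s0 _ _ _ _ fun a => ?_
      rw [← map_eq_zero_iff i hi, hπ, mem_Jn]
      constructor
      · intro h k hk
        rw [Nat.le_zero.1 hk]
        exact h
      · intro h
        exact h 0 le_rfl
    · intro i j hij
      exact Kc_mono (Jn_anti 𝒜 hij)
    · intro i
      exact Kc_comm _ _ fun a ha b hb => Jn_mul 𝒜 ha hb
  · rw [QuotientGroup.ker_mk']

end

end Pool.Agent.J6H75.BT
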