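import Mathlib
import Pool.Agent.J6H75.BT.Graded

/-!
# `GL₂` of polynomial rings and of algebras with a place at infinity
-/

set_option autoImplicit false

namespace Pool.Agent.J6H75.BT

open Pool.Agent.Y110.FJ (ClosedE)

variable {C : ∀ (G : Type) [Group G], Prop}

section triv

variable {A : Type} [Ring A]

theorem of_triv (hC : ClosedE C) (h : C (GaL (1 : PUnit →* (A ≃+* A)))) : C (GL2 A) :=
  hC.base.of_injective _ _ (SemidirectProduct.inl : GL2 A →* GaL (1 : PUnit →* (A ≃+* A)))
    SemidirectProduct.inl_injective h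

theorem to_triv (hC : ClosedE C) (h : C (GL2 A)) : C (GaL (1 : PUnit →* (A ≃+* A))) := by
  refine hC.base.of_injective _ _ (MonoidHom.mk' (fun x : GaL (1 : PUnit →* (A ≃+* A)) => x.left)
    fun x y => ?_) ?_ h
  · rw [SemidirectProduct.mul_left]
    simp
  · intro x y hxy
    exact SemidirectProduct.ext hxy (Subsingleton.elim _ _)

theorem glMap_injective {B : Type} [Ring B] (f : A →+* B) (hf : Function.Injective f) :
    Function.Injective (glMap f) := by
  intro x y h
  apply Units.ext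
  ext i j
  apply hf
  rw [← glMap_val, ← glMap_val, h]

theorem of_inj (hC : ClosedE C) {B : Type} [Ring B] (f : A →+* B) (hf : Function.Injective f)
    (h : C (GL2 B)) : C (GL2 A) :=
  hC.base.of_injective _ _ (glMap f) (glMap_injective f hf) h

end triv

theorem inv_triv {A : Type} [CommRing A] (J : Ideal A) : Inv (1 : PUnit →* (A ≃+* A)) J :=
  ⟨fun _ ha _ => Ideal.mul_mem_right _ _ ha, fun _ _ ha => ha⟩

/-- **Commutative domains with a degree function**, detection by quotients. -/
theorem quotients (hC : ClosedE C) {A : Type} [CommRing A] [IsDomain A] {deg : A → ℕ}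
    (hdeg : IsDegree deg)
    (h : ∀ n : ℕ, ∃ J : Ideal A, (∀ a ∈ J, a ≠ 0 → n < deg a) ∧ C (GL2 (A ⧸ J))) : C (GL2 A) := by
  refine of_triv hC (comm_crit hC hdeg (fun _ _ => rfl) fun n => ?_)
  obtain ⟨J, hJ, hCJ⟩ := h n
  have heq : ∀ (γ : PUnit) (a : A), Ideal.Quotient.mk J ((1 : PUnit →* (A ≃+* A)) γ a) =
      (1 : PUnit →* ((A ⧸ J) ≃+* (A ⧸ J))) γ (Ideal.Quotient.mk J a) := fun _ _ => rfl
  refine ⟨J, inv_triv J, GaL (1 : PUnit →* ((A ⧸ J) ≃+* (A ⧸ J))), inferInstance,
    gaMap _ _ (Ideal.Quotient.mk J) heq, to_triv hC hCJ, ?_, hJ⟩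
  exact (gaMap_ker _ _ _ heq J (inv_triv J) fun a => Ideal.Quotient.eq_zero_iff_mem).le

/-- **One element of positive degree.** -/
theorem one_elem (hC : ClosedE C) (hsol : ∀ (S : Type) [Group S], Group.IsSolvable S → C S)
    {A : Type} [CommRing A] [IsDomain A] {deg : A → ℕ} (hdeg : IsDegree deg) (a : A)
    (ha : 0 < deg a) (h : C (GL2 (A ⧸ Ideal.span {a}))) : C (GL2 A) := by
  by_cases ha0 : a = 0
  · -- the ideal is zero
    subst ha0
    refine of_inj hC (Ideal.Quotient.mk (Ideal.span {(0 : A)})) ?_ h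
    rw [injective_iff_map_eq_zero]
    intro b hb
    rw [Ideal.Quotient.eq_zero_iff_mem, Ideal.mem_span_singleton, zero_dvd_iff] at hb
    exact hb
  have hpow : ∀ i : ℕ, i + 1 ≤ deg (a ^ (i + 1)) := by
    intro i
    induction i with
    | zero => rw [zero_add, pow_one]; exact ha
    | succ i ih =>
      rw [pow_succ, hdeg.mul _ _ (pow_ne_zero _ ha0) ha0]
      omega
  let J : ℕ → Ideal A := fun i => Ideal.span {a ^ (i + 1)}
  have hJ : ∀ i, ∀ b ∈ J i, b ≠ 0 → i < deg b := by
    intro i b hb hb0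
    obtain ⟨c, rfl⟩ := Ideal.mem_span_singleton.1 hb
    rw [hdeg.mul _ _ (pow_ne_zero _ ha0) (right_ne_zero_of_mul hb0)]
    have := hpow i
    omega
  have heq : ∀ (γ : PUnit) (b : A), Ideal.Quotient.mk (Ideal.span {a})
      ((1 : PUnit →* (A ≃+* A)) γ b) =
      (1 : PUnit →* ((A ⧸ Ideal.span {a}) ≃+* (A ⧸ Ideal.span {a}))) γ
        (Ideal.Quotient.mk (Ideal.span {a}) b) := fun _ _ => rfl
  refine of_triv hC (comm_crit hC hdeg (fun _ _ => rfl) fun n => ?_)
  have hn := Kc_normal (s := (1 : PUnit →* (A ≃+* A))) (J n) (inv_triv (J n))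
  refine ⟨J n, inv_triv _, _ ⧸ Kc (1 : PUnit →* (A ≃+* A)) (J n) (inv_triv _), inferInstance,
    QuotientGroup.mk' _, ?_, ?_, hJ n⟩
  · refine chain hC hsol (to_triv hC h) (gaMap (1 : PUnit →* (A ≃+* A))
      (1 : PUnit →* ((A ⧸ Ideal.span {a}) ≃+* (A ⧸ Ideal.span {a}))) (Ideal.Quotient.mk _)
      heq) (fun i => Kc _ (J i) (inv_triv _)) (fun i => Kc_normal _ _) ?_ ?_ ?_ n
    · refine gaMap_ker _ _ _ _ _ _ fun b => ?_
      rw [Ideal.Quotient.eq_zero_iff_mem]
      show _ ↔ b ∈ Ideal.span {a ^ (0 + 1)}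
      rw [zero_add, pow_one]
    · intro i j hij
      refine Kc_mono ?_
      show Ideal.span {a ^ (j + 1)} ≤ Ideal.span {a ^ (i + 1)}
      rw [Ideal.span_singleton_le_span_singleton]
      exact pow_dvd_pow _ (by omega)
    · intro i
      refine Kc_comm _ _ fun b hb c hc => ?_
      rw [Ideal.mem_span_singleton] at hb hc ⊢
      refine dvd_trans ?_ (mul_dvd_mul hb hc)
      rw [← pow_add]
      exact pow_dvd_pow _ (by omega)
  · rw [QuotientGroup.ker_mk']

/-- **Polynomial rings.** -/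
theorem poly (hC : ClosedE C) (hsol : ∀ (S : Type) [Group S], Group.IsSolvable S → C S)
    (R σ : Type) [CommRing R] [IsDomain R] (h : C (GL2 R)) : C (GL2 (MvPolynomial σ R)) := by
  let _ := MvPolynomial.gradedAlgebra (σ := σ) (R := R)
  refine of_triv hC (graded (MvPolynomial.homogeneousSubmodule σ R) hC hsol (fun _ _ _ h => h)
    (1 : PUnit →* _) (fun _ _ => rfl) (to_triv hC ?_))
  refine of_inj hC (MvPolynomial.constantCoeff.comp
    (algebraMap (MvPolynomial.homogeneousSubmodule σ R 0) (MvPolynomial σ R))) ?_ h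
  rw [injective_iff_map_eq_zero]
  rintro ⟨p, hp⟩ h0
  have h1 : p.totalDegree = 0 := (MvPolynomial.totalDegree_zero_iff_isHomogeneous σ).2 hp
  rw [MvPolynomial.totalDegree_eq_zero_iff_eq_C] at h1
  have h2 : MvPolynomial.constantCoeff p = 0 := h0
  apply Subtype.ext
  show p = 0
  rw [h1, ← MvPolynomial.constantCoeff_eq, h2, map_zero]

/-- finite-dimensional algebras -/
theorem findim (hC : ClosedE C) (K : Type) [Field K] (hK : ∀ n : ℕ, C (GL (Fin n) K)) (B : Type)
    [Ring B] [Algebra K B] [FiniteDimensional K B] : C (GL2 B) := by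
  let b := Module.finBasis K B
  let f1 : B →+* Matrix (Fin (Module.finrank K B)) (Fin (Module.finrank K B)) K :=
    (Algebra.leftMulMatrix b).toRingHom
  have hf1 : Function.Injective f1 := Algebra.leftMulMatrix_injective b
  let f2 : Matrix (Fin 2) (Fin 2) B →+*
      Matrix (Fin 2 × Fin (Module.finrank K B)) (Fin 2 × Fin (Module.finrank K B)) K :=
    (Matrix.compRingEquiv (Fin 2) (Fin (Module.finrank K B)) K).toRingHom.comp
      (RingHom.mapMatrix (m := Fin 2) f1)
  let f3 : Matrix (Fin 2) (Fin 2) B →+*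
      Matrix (Fin (2 * Module.finrank K B)) (Fin (2 * Module.finrank K B)) K :=
    (Matrix.reindexAlgEquiv K K finProdFinEquiv).toRingEquiv.toRingHom.comp f2
  have hf3 : Function.Injective f3 := by
    intro M N h
    have h1 : f2 M = f2 N := (Matrix.reindexAlgEquiv K K
      (finProdFinEquiv (m := 2) (n := Module.finrank K B))).injective h
    have h2 : RingHom.mapMatrix (m := Fin 2) f1 M = RingHom.mapMatrix (m := Fin 2) f1 N :=
      (Matrix.compRingEquiv (Fin 2) (Fin (Module.finrank K B)) K).injective h1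
    ext i j
    apply hf1
    exact congrArg (fun X => X i j) h2
  refine hC.base.of_injective _ (GL (Fin (2 * Module.finrank K B)) K)
    (Units.map f3.toMonoidHom) ?_ (hK _)
  intro x y h
  apply Units.ext
  exact hf3 (congrArg Units.val h)

end Pool.Agent.J6H75.BT
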