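import Mathlib
import Pool.Agent.J6H75.BT.Apps

/-!
# Finitely generated algebras with a place at infinity
-/

set_option autoImplicit false

namespace Pool.Agent.J6H75.BT

open Pool.Agent.Y110.FJ (ClosedE)

variable {C : ∀ (G : Type) [Group G], Prop}

/-- quotients by powers of maximal ideals are finite-dimensional -/
theorem finite_pow (K A : Type) [Field K] [CommRing A] [Algebra K A] [Algebra.FiniteType K A]
    (m : Ideal A) (hm : m.IsMaximal) (k : ℕ) : Module.Finite K (A ⧸ m ^ k) := by
  rw [Module.finite_iff_krullDimLE_zero]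
  refine Ring.KrullDimLE.mk₀ fun I hI => ?_
  have h1 : (I.comap (Ideal.Quotient.mk (m ^ k))).IsPrime := Ideal.comap_isPrime _ _
  have h2 : m ≤ I.comap (Ideal.Quotient.mk (m ^ k)) := by
    refine h1.le_of_pow_le (n := k) fun x hx => ?_
    rw [Ideal.mem_comap, Ideal.Quotient.eq_zero_iff_mem.2 hx]
    exact I.zero_mem
  have h3 : (I.comap (Ideal.Quotient.mk (m ^ k))).IsMaximal := by
    rw [← hm.eq_of_le h1.ne_top h2]
    exact hm
  have h4 := Ideal.map_comap_of_surjective (Ideal.Quotient.mk (m ^ k))
    Ideal.Quotient.mk_surjective I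
  rw [← h4]
  exact Ideal.IsMaximal.map_of_surjective_of_ker_le Ideal.Quotient.mk_surjective (by
    rw [Ideal.mk_ker]
    intro x hx
    rw [Ideal.mem_comap, Ideal.Quotient.eq_zero_iff_mem.2 hx]
    exact I.zero_mem)

/-- **Finitely generated algebras with a place at infinity.** -/
theorem fg_alg (hC : ClosedE C) (K A : Type) [Field K] (hK : ∀ n : ℕ, C (GL (Fin n) K))
    [CommRing A] [IsDomain A] [Algebra K A] [Algebra.FiniteType K A] {deg : A → ℕ}
    (hdeg : IsDegree deg)
    (hfin : ∀ n : ℕ, ∃ W : Submodule K A, FiniteDimensional K W ∧ ∀ a, deg a ≤ n → a ∈ W) :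
    C (GL2 A) := by
  obtain ⟨m, hm⟩ := Ideal.exists_maximal A
  have hN : IsNoetherianRing A := Algebra.FiniteType.isNoetherianRing K A
  refine quotients hC hdeg fun n => ?_
  obtain ⟨W, hW, hWn⟩ := hfin n
  have hex : ∃ k : ℕ, ∀ x ∈ W, x ∈ m ^ k → x = 0 := by
    have hart : IsArtinian K W := inferInstance
    obtain ⟨k, hk⟩ := IsArtinian.monotone_stabilizes
      (⟨fun k => OrderDual.toDual (((m ^ k).restrictScalars K).comap W.subtype), by
        intro i j hij
        rw [OrderDual.toDual_le_toDual]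
        exact Submodule.comap_mono (fun x hx => Ideal.pow_le_pow_right hij hx)⟩ :
        ℕ →o (Submodule K W)ᵒᵈ)
    refine ⟨k, fun x hxW hx => ?_⟩
    have h1 : x ∈ ⨅ i : ℕ, m ^ i := by
      rw [Ideal.mem_iInf]
      intro i
      rcases le_total k i with h | h
      · have h2 : (⟨x, hxW⟩ : W) ∈ ((m ^ k).restrictScalars K).comap W.subtype := hx
        have h3 : ((m ^ k).restrictScalars K).comap W.subtype =
            ((m ^ i).restrictScalars K).comap W.subtype := OrderDual.toDual_inj.1 (hk i h)
        rw [h3] at h2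
        exact h2
      · exact Ideal.pow_le_pow_right h hx
    rw [Ideal.iInf_pow_eq_bot_of_isDomain m hm.ne_top] at h1
    exact h1
  obtain ⟨k, hk⟩ := hex
  have := finite_pow K A m hm k
  refine ⟨m ^ k, fun a ha h0 => ?_, findim hC K hK _⟩
  by_contra h
  push Not at h
  exact h0 (hk a (hWn a h) ha)

end Pool.Agent.J6H75.BT
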